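import Mathlib.Algebra.BigOperators.Ring.Finset
import Mathlib.Algebra.BigOperators.Group.Finset.Piecewise
import Mathlib.Algebra.Order.BigOperators.Group.Finset
import Mathlib.Data.ZMod.Basic
import Mathlib.Algebra.Group.Subgroup.Basic
import Mathlib.Algebra.Group.Subgroup.Finite
import Mathlib.Data.Fintype.BigOperators
import Mathlib.Tactic

/-!
Combinatorial core of the Heisenberg symmetric case of MP_7fdaab_ag.

`V` is a finite vector space over F_2 (an additive group of exponent two) with an alternating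
biadditive form `w`, nondegenerate, `|V| = 4^k`.  `th j : V → ZMod 2`, `j ∈ J`, are functions with
`th j (x+y) = th j x + th j y + w x y` and `sum_v (-1)^(th j v) ≤ 2^k`.  If for every isotropic
subgroup `U` at least two of the `th j` vanish on `U`, then `3 * 2^k ≤ 2 * |J|`.
-/

namespace Pool.Agent.Lib.MP_7fdaab_ag.Heis

open Finset

/-- the sign character of `ZMod 2` with integer values -/
def sg (t : ZMod 2) : ℤ := if t = 0 then 1 else -1

theorem sg_zero : sg 0 = 1 := rfl

theorem sg_one : sg 1 = -1 := rfl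

theorem sg_add (s t : ZMod 2) : sg (s + t) = sg s * sg t := by
  revert s t; decide

theorem sg_le_one (t : ZMod 2) : sg t ≤ 1 := by
  revert t; decide

theorem sg_ne (t : ZMod 2) (h : t ≠ 0) : sg t = -1 := by
  unfold sg; rw [if_neg h]

structure Data (k : ℕ) (V J : Type) [AddCommGroup V] [Fintype V] [DecidableEq V] [Fintype J] where
  w : V → V → ZMod 2
  two : ∀ v : V, v + v = 0
  add_left : ∀ x y z, w (x + y) z = w x z + w y z
  add_right : ∀ x y z, w x (y + z) = w x y + w x z
  self : ∀ x, w x x = 0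
  symm : ∀ x y, w x y = w y x
  nondeg : ∀ x, (∀ y, w x y = 0) → x = 0
  card : Fintype.card V = 4 ^ k
  th : J → V → ZMod 2
  th_add : ∀ j x y, th j (x + y) = th j x + th j y + w x y
  th_sum : ∀ j, ∑ v, sg (th j v) ≤ 2 ^ k

variable {k : ℕ} {V J : Type} [AddCommGroup V] [Fintype V] [DecidableEq V] [Fintype J]

namespace Data

variable (D : Data k V J)

theorem w_zero_right (x : V) : D.w x 0 = 0 := by
  have h := D.add_right x 0 0
  rw [add_zero] at h
  exact (left_eq_add.mp h)

theorem w_zero_left (x : V) : D.w 0 x = 0 := by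
  rw [D.symm]; exact D.w_zero_right x

theorem th_zero (j : J) : D.th j 0 = 0 := by
  have h := D.th_add j 0 0
  rw [add_zero, D.w_zero_left, add_zero] at h
  exact (left_eq_add.mp h)

/-- isotropic subgroups -/
def Iso (U : AddSubgroup V) : Prop := ∀ x ∈ U, ∀ y ∈ U, D.w x y = 0

/-- the orthogonal of a subgroup -/
def orth (U : AddSubgroup V) : AddSubgroup V where
  carrier := {v | ∀ u ∈ U, D.w u v = 0}
  zero_mem' := fun u _ => D.w_zero_right u
  add_mem' := by
    intro a b ha hb u hu
    rw [D.add_right, ha u hu, hb u hu, add_zero]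
  neg_mem' := by
    intro a ha u hu
    have h : -a = a := by
      rw [neg_eq_iff_add_eq_zero]; exact D.two a
    rw [h]; exact ha u hu

theorem mem_orth (U : AddSubgroup V) (v : V) : v ∈ D.orth U ↔ ∀ u ∈ U, D.w u v = 0 := Iff.rfl

open Classical in
/-- number of `j` with `th j` vanishing on `U` -/
noncomputable def W (U : AddSubgroup V) : ℤ :=
  ((univ.filter (fun j : J => ∀ h ∈ U, D.th j h = 0)).card : ℤ)

open Classical in
/-- the elements of a subgroup as a finset -/
noncomputable def fs (U : AddSubgroup V) : Finset V := univ.filter (fun v => v ∈ U)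

omit [DecidableEq V] [Fintype J] in
theorem mem_fs (U : AddSubgroup V) (v : V) : v ∈ fs U ↔ v ∈ U := by
  unfold fs; simp

omit [DecidableEq V] [Fintype J] in
theorem card_fs_pos (U : AddSubgroup V) : 0 < ((fs U).card : ℤ) := by
  have : (0 : V) ∈ fs U := (mem_fs U 0).2 U.zero_mem
  exact_mod_cast Finset.card_pos.2 ⟨0, this⟩

/-- sum of a nontrivial sign character over a subgroup vanishes -/
theorem sum_char_zero (U : AddSubgroup V) (f : V → ZMod 2)
    (hf : ∀ x ∈ U, ∀ y ∈ U, f (x + y) = f x + f y) (g : V) (hg : g ∈ U) (hfg : f g ≠ 0)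
    (D : Data k V J) : ∑ x ∈ fs U, sg (f x) = 0 := by
  have h1 : ∑ x ∈ fs U, sg (f x) = ∑ x ∈ fs U, sg (f (x + g)) := by
    symm
    apply Finset.sum_nbij' (fun x => x + g) (fun x => x + g)
    · intro x hx; rw [mem_fs] at hx ⊢; exact U.add_mem hx hg
    · intro x hx; rw [mem_fs] at hx ⊢; exact U.add_mem hx hg
    · intro x _
      rw [add_assoc, D.two, add_zero]
    · intro x _
      rw [add_assoc, D.two, add_zero]
    · intro x _
      rfl
  have h2 : ∑ x ∈ fs U, sg (f (x + g)) = - ∑ x ∈ fs U, sg (f x) := by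
    rw [← Finset.sum_neg_distrib]
    apply Finset.sum_congr rfl
    intro x hx
    rw [mem_fs] at hx
    rw [hf x hx g hg, sg_add, sg_ne _ hfg]; ring
  have h3 := h1.trans h2
  linarith

omit [DecidableEq V] [Fintype J] in
theorem sum_char_one (U : AddSubgroup V) (f : V → ZMod 2) (hf : ∀ x ∈ U, f x = 0) :
    ∑ x ∈ fs U, sg (f x) = (fs U).card := by
  rw [Finset.sum_congr rfl (g := fun _ => (1 : ℤ))]
  · simp
  · intro x hx; rw [mem_fs] at hx; rw [hf x hx]; rfl

theorem sum_char_nonneg (U : AddSubgroup V) (f : V → ZMod 2)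
    (hf : ∀ x ∈ U, ∀ y ∈ U, f (x + y) = f x + f y) (D : Data k V J) :
    0 ≤ ∑ x ∈ fs U, sg (f x) := by
  by_cases h : ∀ x ∈ U, f x = 0
  · rw [sum_char_one U f h]; exact (card_fs_pos U).le
  · push Not at h
    obtain ⟨g, hg, hfg⟩ := h
    rw [sum_char_zero U f hf g hg hfg D]

open Classical in
theorem sum_w (U : AddSubgroup V) (v : V) :
    ∑ u ∈ fs U, sg (D.w u v) = if v ∈ D.orth U then ((fs U).card : ℤ) else 0 := by
  split_ifs with h
  · exact sum_char_one U (fun u => D.w u v) h
  · rw [mem_orth] at h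
    push Not at h
    obtain ⟨g, hg, hgv⟩ := h
    exact sum_char_zero U (fun u => D.w u v) (fun x _ y _ => D.add_left x y v) g hg hgv D

omit [DecidableEq V] [Fintype J] in
theorem sum_fs (U : AddSubgroup V) (F : V → ℤ) [DecidablePred (fun v => v ∈ U)] :
    ∑ v ∈ fs U, F v = ∑ v, if v ∈ U then F v else 0 := by
  classical
  unfold fs
  rw [Finset.sum_filter]
  apply Finset.sum_congr rfl
  intro v _
  by_cases h : v ∈ U
  · rw [if_pos h, if_pos h]
  · rw [if_neg h, if_neg h]

/-- character sum over the orthogonal -/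
theorem sum_orth (U : AddSubgroup V) (j : J) (hj : ∀ h ∈ U, D.th j h = 0) :
    ∑ v ∈ fs (D.orth U), sg (D.th j v) = ∑ v, sg (D.th j v) := by
  classical
  have hpos := card_fs_pos U
  have key : ((fs U).card : ℤ) * ∑ v ∈ fs (D.orth U), sg (D.th j v)
      = ((fs U).card : ℤ) * ∑ v, sg (D.th j v) := by
    calc ((fs U).card : ℤ) * ∑ v ∈ fs (D.orth U), sg (D.th j v)
        = ∑ v, ∑ u ∈ fs U, sg (D.w u v) * sg (D.th j v) := by
          rw [sum_fs, Finset.mul_sum]
          apply Finset.sum_congr rfl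
          intro v _
          rw [← Finset.sum_mul, D.sum_w U v]
          split_ifs <;> ring
      _ = ∑ u ∈ fs U, ∑ v, sg (D.w u v) * sg (D.th j v) := Finset.sum_comm
      _ = ∑ u ∈ fs U, ∑ v, sg (D.th j v) := by
          apply Finset.sum_congr rfl
          intro u hu
          rw [mem_fs] at hu
          calc ∑ v, sg (D.w u v) * sg (D.th j v) = ∑ v, sg (D.th j (u + v)) := by
                apply Finset.sum_congr rfl
                intro v _
                rw [D.th_add, hj u hu, zero_add, add_comm, sg_add]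
            _ = ∑ v, sg (D.th j v) := by
                exact Fintype.sum_equiv (Equiv.addLeft u) _ _ (fun v => rfl)
      _ = ((fs U).card : ℤ) * ∑ v, sg (D.th j v) := by
          rw [Finset.sum_const, nsmul_eq_mul]
  exact mul_left_cancel₀ hpos.ne' key

/-- `|U| |U^⊥| = 4^k` -/
theorem card_mul (U : AddSubgroup V) :
    ((fs U).card : ℤ) * ((fs (D.orth U)).card : ℤ) = 4 ^ k := by
  classical
  have h1 : ∑ v, ∑ u ∈ fs U, sg (D.w u v)
      = ((fs U).card : ℤ) * ((fs (D.orth U)).card : ℤ) := by
    rw [Finset.sum_congr rfl (fun v _ => D.sum_w U v), ← sum_fs (D.orth U) (fun _ => ((fs U).card : ℤ)),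
      Finset.sum_const, nsmul_eq_mul]
    ring
  rw [← h1, Finset.sum_comm]
  have h2 : ∀ u ∈ fs U, ∑ v, sg (D.w u v) = if u = 0 then (4 ^ k : ℤ) else 0 := by
    intro u _
    split_ifs with h0
    · subst h0
      have : ∀ v, sg (D.w 0 v) = 1 := fun v => by rw [D.w_zero_left]; rfl
      rw [Finset.sum_congr rfl (fun v _ => this v)]
      simp only [Finset.sum_const, nsmul_eq_mul, mul_one, Finset.card_univ]
      rw [D.card]; norm_num
    · have hne : ∃ y, D.w u y ≠ 0 := by
        by_contra hcon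
        push Not at hcon
        exact h0 (D.nondeg u hcon)
      obtain ⟨y, hy⟩ := hne
      have := sum_char_zero (⊤ : AddSubgroup V) (fun v => D.w u v)
        (fun x _ z _ => D.add_right u x z) y (AddSubgroup.mem_top y) hy D
      have htop : fs (⊤ : AddSubgroup V) = univ := by
        ext x; simp [mem_fs]
      rw [htop] at this
      exact this
  rw [Finset.sum_congr rfl h2, Finset.sum_ite_eq' (fs U) 0 (fun _ => (4 ^ k : ℤ)), if_pos]
  exact (mem_fs U 0).2 U.zero_mem

/-- the subgroup generated by `U` and `v` -/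
def ext (U : AddSubgroup V) (v : V) : AddSubgroup V where
  carrier := {x | x ∈ U ∨ x + v ∈ U}
  zero_mem' := Or.inl U.zero_mem
  add_mem' := by
    intro a b ha hb
    rcases ha with ha | ha <;> rcases hb with hb | hb
    · exact Or.inl (U.add_mem ha hb)
    · right
      have := U.add_mem ha hb
      rwa [← add_assoc] at this
    · right
      have := U.add_mem ha hb
      have e : a + b + v = a + v + b := by abel
      change a + b + v ∈ U
      rw [e]; exact this
    · left
      have := U.add_mem ha hb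
      have e : a + v + (b + v) = a + b + (v + v) := by abel
      rw [e, D.two, add_zero] at this
      exact this
  neg_mem' := by
    intro a ha
    have h : -a = a := by
      rw [neg_eq_iff_add_eq_zero]; exact D.two a
    rw [h]; exact ha

theorem mem_ext (U : AddSubgroup V) (v x : V) : x ∈ D.ext U v ↔ x ∈ U ∨ x + v ∈ U := Iff.rfl

theorem le_ext (U : AddSubgroup V) (v : V) : U ≤ D.ext U v := fun _ hx => Or.inl hx

theorem self_mem_ext (U : AddSubgroup V) (v : V) : v ∈ D.ext U v := by
  right; rw [D.two]; exact U.zero_mem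

theorem iso_ext (U : AddSubgroup V) (hU : D.Iso U) (v : V) (hv : v ∈ D.orth U) :
    D.Iso (D.ext U v) := by
  have aux : ∀ x, x + v ∈ U → x = (x + v) + v := by
    intro x _
    rw [add_assoc, D.two, add_zero]
  intro x hx y hy
  rcases hx with hx | hx <;> rcases hy with hy | hy
  · exact hU x hx y hy
  · rw [aux y hy, D.add_right, hU x hx _ hy, hv x hx, add_zero]
  · rw [aux x hx, D.add_left, hU _ hx y hy, D.symm v y, hv y hy, add_zero]
  · have e1 : D.w ((x + v) + v) ((y + v) + v)
        = D.w (x + v) (y + v) + D.w (x + v) v + (D.w v (y + v) + D.w v v) := by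
      rw [D.add_left, D.add_right (x + v) (y + v) v, D.add_right v (y + v) v]
    rw [aux x hx, aux y hy, e1, hU _ hx _ hy, hv _ hx,
      D.symm v (y + v), hv _ hy, D.self]; simp

theorem card_ext (U : AddSubgroup V) (v : V) (hv : v ∉ U) :
    ((fs (D.ext U v)).card : ℤ) = 2 * ((fs U).card : ℤ) := by
  classical
  have h1 : fs (D.ext U v) = (fs U).disjUnion ((fs U).map (Equiv.addRight v).toEmbedding) (by
      rw [Finset.disjoint_left]
      intro x hx hx'
      rw [Finset.mem_map] at hx'
      obtain ⟨y, hy, hyx⟩ := hx'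
      rw [mem_fs] at hx hy
      have : v = x - y := by
        rw [← hyx]; simp
      exact hv (this ▸ U.sub_mem hx hy)) := by
    ext x
    rw [Finset.mem_disjUnion, mem_fs, mem_ext, mem_fs, Finset.mem_map]
    constructor
    · rintro (h | h)
      · exact Or.inl h
      · right
        refine ⟨x + v, (mem_fs U _).2 h, ?_⟩
        simp only [Equiv.toEmbedding_apply, Equiv.coe_addRight]
        rw [add_assoc, D.two, add_zero]
    · rintro (h | ⟨y, hy, hyx⟩)
      · exact Or.inl h
      · right
        rw [mem_fs] at hy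
        rw [← hyx]
        simp only [Equiv.toEmbedding_apply, Equiv.coe_addRight]
        rw [add_assoc, D.two, add_zero]
        exact hy
  rw [h1, Finset.card_disjUnion, Finset.card_map]
  push_cast; ring

/-- the weighted sum -/
noncomputable def F (U : AddSubgroup V) (v : V) : ℤ := by
  classical
  exact ∑ j ∈ univ.filter (fun j : J => ∀ h ∈ U, D.th j h = 0), sg (D.th j v)

theorem F_of_mem (U : AddSubgroup V) (v : V) (hv : v ∈ U) : D.F U v = D.W U := by
  classical
  unfold F W
  rw [Finset.sum_congr rfl (g := fun _ => (1 : ℤ))]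
  · simp
  · intro j hj
    rw [Finset.mem_filter] at hj
    rw [hj.2 v hv]; rfl

theorem F_of_orth (U : AddSubgroup V) (v : V) (hv : v ∈ D.orth U) :
    D.F U v = 2 * D.W (D.ext U v) - D.W U := by
  classical
  unfold F W
  set T := univ.filter (fun j : J => ∀ h ∈ U, D.th j h = 0) with hT
  have h1 : univ.filter (fun j : J => ∀ h ∈ D.ext U v, D.th j h = 0)
      = T.filter (fun j => D.th j v = 0) := by
    ext j
    rw [hT, Finset.mem_filter, Finset.mem_filter, Finset.mem_filter]
    constructor
    · rintro ⟨_, h⟩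
      exact ⟨⟨Finset.mem_univ _, fun x hx => h x (D.le_ext U v hx)⟩, h v (D.self_mem_ext U v)⟩
    · rintro ⟨⟨_, h⟩, h0⟩
      refine ⟨Finset.mem_univ _, ?_⟩
      intro x hx
      rcases hx with hx | hx
      · exact h x hx
      · have e : x = (x + v) + v := by rw [add_assoc, D.two, add_zero]
        rw [e, D.th_add, h _ hx, h0, hv _ hx]; simp
  rw [h1]
  have h2 : ∀ j ∈ T, sg (D.th j v) = 2 * (if D.th j v = 0 then 1 else 0) - 1 := by
    intro j _
    by_cases h0 : D.th j v = 0
    · rw [if_pos h0, h0]; rfl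
    · rw [if_neg h0, sg_ne _ h0]; rfl
  rw [Finset.sum_congr rfl h2, Finset.sum_sub_distrib, ← Finset.mul_sum, ← Finset.sum_filter]
  simp

/-- upper bound for the total of `F` over the orthogonal -/
theorem sum_F (U : AddSubgroup V) : ∑ v ∈ fs (D.orth U), D.F U v ≤ 2 ^ k * D.W U := by
  classical
  unfold F W
  rw [Finset.sum_comm]
  set T := univ.filter (fun j : J => ∀ h ∈ U, D.th j h = 0) with hT
  have h1 : ∀ j ∈ T, ∑ v ∈ fs (D.orth U), sg (D.th j v) ≤ 2 ^ k := by
    intro j hj
    rw [hT, Finset.mem_filter] at hj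
    rw [D.sum_orth U j hj.2]
    exact D.th_sum j
  calc ∑ j ∈ T, ∑ v ∈ fs (D.orth U), sg (D.th j v) ≤ ∑ _j ∈ T, (2 ^ k : ℤ) :=
        Finset.sum_le_sum h1
    _ = 2 ^ k * (T.card : ℤ) := by rw [Finset.sum_const, nsmul_eq_mul]; ring

theorem le_orth (U : AddSubgroup V) (hU : D.Iso U) : U ≤ D.orth U :=
  fun x hx u hu => hU u hu x hx

/-- split of a sum over a bigger subgroup -/
theorem sum_split (U L : AddSubgroup V) (hUL : U ≤ L) (G : V → ℤ) :
    ∑ v ∈ fs L, G v = ∑ v ∈ fs U, G v + ∑ v ∈ fs L \ fs U, G v := by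
  classical
  have : fs U ⊆ fs L := by
    intro x hx; rw [mem_fs] at *; exact hUL hx
  rw [add_comm]
  exact (Finset.sum_sdiff this).symm

/-- the recursion step -/
theorem rec_step (U : AddSubgroup V) (hU : D.Iso U) (d : ℕ)
    (hd : ((fs U).card : ℤ) * 2 ^ (d + 1) = 2 ^ k) (C : ℤ)
    (hC : ∀ v ∈ D.orth U, v ∉ U → C ≤ 2 * D.W (D.ext U v)) :
    (2 ^ (d + 1) + 1) * (C - D.W U) ≤ D.W U := by
  classical
  have hu := card_fs_pos U
  have h1 := D.sum_F U
  rw [sum_split U (D.orth U) (D.le_orth U hU)] at h1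
  have h2 : ∑ v ∈ fs U, D.F U v = ((fs U).card : ℤ) * D.W U := by
    rw [Finset.sum_congr rfl (fun v hv => D.F_of_mem U v ((mem_fs U v).1 hv)), Finset.sum_const,
      nsmul_eq_mul]
  have h3 : ((fs (D.orth U) \ fs U).card : ℤ) * (C - D.W U)
      ≤ ∑ v ∈ fs (D.orth U) \ fs U, D.F U v := by
    rw [← nsmul_eq_mul, ← Finset.sum_const]
    apply Finset.sum_le_sum
    intro v hv
    rw [Finset.mem_sdiff, mem_fs, mem_fs] at hv
    rw [D.F_of_orth U v hv.1]
    linarith [hC v hv.1 hv.2]
  have hsub : fs U ⊆ fs (D.orth U) := by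
    intro x hx; rw [mem_fs] at *; exact D.le_orth U hU hx
  have h4 : ((fs (D.orth U) \ fs U).card : ℤ) = ((fs (D.orth U)).card : ℤ) - (fs U).card := by
    rw [Finset.card_sdiff_of_subset hsub]
    rw [Nat.cast_sub (Finset.card_le_card hsub)]
  have h5 : ((fs (D.orth U)).card : ℤ) = (fs U).card * 4 ^ (d + 1) := by
    have h6 := D.card_mul U
    have h7 : (4 : ℤ) ^ k = (fs U).card * ((fs U).card * 4 ^ (d + 1)) := by
      have : (4 : ℤ) ^ k = (2 ^ k) * (2 ^ k) := by
        rw [← mul_pow]; norm_num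
      rw [this, ← hd]
      have : (4 : ℤ) ^ (d + 1) = 2 ^ (d + 1) * 2 ^ (d + 1) := by
        rw [← mul_pow]; norm_num
      rw [this]; ring
    rw [h7] at h6
    exact mul_left_cancel₀ hu.ne' h6
  rw [h2] at h1
  rw [h4, h5] at h3
  rw [← hd] at h1
  set u : ℤ := ((fs U).card : ℤ)
  set t := D.W U
  have hx : (4 : ℤ) ^ (d + 1) = 2 ^ (d + 1) * 2 ^ (d + 1) := by
    rw [← mul_pow]; norm_num
  rw [hx] at h3
  have hX : (2 : ℤ) ≤ 2 ^ (d + 1) := by
    have : (1 : ℤ) ≤ 2 ^ d := one_le_pow₀ (by norm_num)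
    rw [pow_succ]; linarith
  set X : ℤ := 2 ^ (d + 1)
  -- u (X^2 - 1) (C - t) ≤ u (X - 1) t
  have h8 : u * (X - 1) * ((X + 1) * (C - t)) ≤ u * (X - 1) * t := by nlinarith
  have h9 : 0 < u * (X - 1) := by
    apply mul_pos hu; linarith
  exact le_of_mul_le_mul_left h8 h9

/-- the linear programming bound -/
theorem lp (c : ℤ) : ∀ (d : ℕ) (U : AddSubgroup V), D.Iso U →
    ((fs U).card : ℤ) * 2 ^ d = 2 ^ k →
    (∀ L : AddSubgroup V, D.Iso L → U ≤ L → ((fs L).card : ℤ) = 2 ^ k → c ≤ D.W L) →
    c * (2 ^ d + 1) ≤ 2 * D.W U := by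
  intro d
  induction d with
  | zero =>
    intro U hU hd hL
    have := hL U hU le_rfl (by simpa using hd)
    rw [pow_zero]; linarith
  | succ d ih =>
    intro U hU hd hL
    have h1 : ∀ v ∈ D.orth U, v ∉ U → c * (2 ^ d + 1) ≤ 2 * D.W (D.ext U v) := by
      intro v hv hvU
      apply ih (D.ext U v) (D.iso_ext U hU v hv)
      · rw [D.card_ext U v hvU, ← hd, pow_succ]; ring
      · intro L hL1 hL2 hL3
        exact hL L hL1 (le_trans (D.le_ext U v) hL2) hL3
    have h2 := D.rec_step U hU d hd _ h1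
    have hX : (0 : ℤ) < 2 ^ d + 1 := by positivity
    rw [pow_succ] at *
    set X : ℤ := 2 ^ d
    set t := D.W U
    have h3 : (X + 1) * (c * (X * 2 + 1)) ≤ (X + 1) * (2 * t) := by nlinarith
    exact le_of_mul_le_mul_left h3 hX

/-- sum of `F` over a Lagrangian containing `U` -/
theorem sum_F_lag (U L : AddSubgroup V) (hL : D.Iso L) (hUL : U ≤ L) :
    ∑ v ∈ fs L, D.F U v = ((fs L).card : ℤ) * D.W L := by
  classical
  unfold F W
  rw [Finset.sum_comm]
  set T := univ.filter (fun j : J => ∀ h ∈ U, D.th j h = 0) with hT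
  have h1 : ∀ j ∈ T, ∑ v ∈ fs L, sg (D.th j v)
      = if (∀ h ∈ L, D.th j h = 0) then ((fs L).card : ℤ) else 0 := by
    intro j _
    split_ifs with h
    · exact sum_char_one L (D.th j) h
    · push Not at h
      obtain ⟨g, hg, hgj⟩ := h
      apply sum_char_zero L (D.th j) _ g hg hgj D
      intro x hx y hy
      rw [D.th_add, hL x hx y hy, add_zero]
  rw [Finset.sum_congr rfl h1, ← Finset.sum_filter, Finset.sum_const, nsmul_eq_mul, mul_comm]
  congr 2
  congr 1
  ext j
  rw [hT, Finset.mem_filter, Finset.mem_filter, Finset.mem_filter]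
  constructor
  · rintro ⟨⟨_, _⟩, h⟩
    exact ⟨Finset.mem_univ _, h⟩
  · rintro ⟨_, h⟩
    exact ⟨⟨Finset.mem_univ _, fun x hx => h x (hUL hx)⟩, h⟩

/-- second moment -/
theorem sum_F_sq (U : AddSubgroup V) :
    ((fs (D.orth U)).card : ℤ) * D.W U ≤ ∑ v ∈ fs (D.orth U), D.F U v ^ 2 := by
  classical
  unfold F W
  set T := univ.filter (fun j : J => ∀ h ∈ U, D.th j h = 0) with hT
  have h1 : ∑ v ∈ fs (D.orth U), (∑ j ∈ T, sg (D.th j v)) ^ 2
      = ∑ i ∈ T, ∑ j ∈ T, ∑ v ∈ fs (D.orth U), sg (D.th i v) * sg (D.th j v) := by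
    calc ∑ v ∈ fs (D.orth U), (∑ j ∈ T, sg (D.th j v)) ^ 2
        = ∑ v ∈ fs (D.orth U), ∑ i ∈ T, ∑ j ∈ T, sg (D.th i v) * sg (D.th j v) := by
          apply Finset.sum_congr rfl
          intro v _
          rw [sq, Finset.sum_mul_sum]
      _ = _ := by
          rw [Finset.sum_comm]
          apply Finset.sum_congr rfl
          intro i _
          rw [Finset.sum_comm]
  rw [h1]
  have h2 : ∀ i ∈ T, ((fs (D.orth U)).card : ℤ)
      ≤ ∑ j ∈ T, ∑ v ∈ fs (D.orth U), sg (D.th i v) * sg (D.th j v) := by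
    intro i hi
    have hnn : ∀ j ∈ T, 0 ≤ ∑ v ∈ fs (D.orth U), sg (D.th i v) * sg (D.th j v) := by
      intro j _
      have := sum_char_nonneg (D.orth U) (fun v => D.th i v + D.th j v) (by
        intro x _ y _
        rw [D.th_add, D.th_add]
        have e : D.w x y + D.w x y = 0 := by
          have h := D.w x y
          generalize D.w x y = a
          revert a; decide
        calc D.th i x + D.th i y + D.w x y + (D.th j x + D.th j y + D.w x y)
            = D.th i x + D.th j x + (D.th i y + D.th j y) + (D.w x y + D.w x y) := by ring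
          _ = _ := by rw [e, add_zero]) D
      simpa only [sg_add] using this
    have hii : ∑ v ∈ fs (D.orth U), sg (D.th i v) * sg (D.th i v)
        = ((fs (D.orth U)).card : ℤ) := by
      rw [Finset.sum_congr rfl (g := fun _ => (1 : ℤ))]
      · simp
      · intro v _
        generalize D.th i v = a
        revert a; decide
    calc ((fs (D.orth U)).card : ℤ) = ∑ v ∈ fs (D.orth U), sg (D.th i v) * sg (D.th i v) :=
          hii.symm
      _ ≤ _ := Finset.single_le_sum hnn hi
  calc ((fs (D.orth U)).card : ℤ) * (T.card : ℤ) = ∑ _i ∈ T, ((fs (D.orth U)).card : ℤ) := by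
        rw [Finset.sum_const, nsmul_eq_mul]; ring
    _ ≤ _ := Finset.sum_le_sum h2

/-- the main induction -/
theorem main (h2 : ∀ U : AddSubgroup V, D.Iso U → 2 ≤ D.W U) :
    ∀ (e : ℕ) (U : AddSubgroup V), D.Iso U → ((fs U).card : ℤ) * 2 ^ (e + 1) = 2 ^ k →
    3 * 2 ^ e ≤ D.W U := by
  intro e
  induction e with
  | zero =>
    intro U hU hd
    have h := D.rec_step U hU 0 hd 4 (fun v hv hvU => by
      have := h2 (D.ext U v) (D.iso_ext U hU v hv)
      linarith)
    norm_num at h ⊢
    linarith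
  | succ e ih =>
    intro U hU hd
    have hW : ∀ v ∈ D.orth U, v ∉ U → 3 * 2 ^ e ≤ D.W (D.ext U v) := by
      intro v hv hvU
      apply ih (D.ext U v) (D.iso_ext U hU v hv)
      rw [D.card_ext U v hvU, ← hd, pow_succ (2 : ℤ) (e + 1)]; ring
    have h := D.rec_step U hU (e + 1) hd (6 * 2 ^ e) (fun v hv hvU => by
      have := hW v hv hvU
      linarith)
    by_contra hcon
    push Not at hcon
    have hpow : (2 : ℤ) ^ (e + 1 + 1) = 4 * 2 ^ e := by ring
    have hpow1 : (2 : ℤ) ^ (e + 1) = 2 * 2 ^ e := by ring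
    rw [hpow] at h
    rw [hpow1] at hcon
    have hx1 : (1 : ℤ) ≤ 2 ^ e := one_le_pow₀ (by norm_num)
    have hu := card_fs_pos U
    have hcard : ((fs (D.orth U)).card : ℤ) = (fs U).card * 4 ^ (e + 2) := by
      have h6 := D.card_mul U
      have h7 : (4 : ℤ) ^ k = (fs U).card * ((fs U).card * 4 ^ (e + 2)) := by
        have h8 : (4 : ℤ) ^ k = (2 ^ k) * (2 ^ k) := by
          rw [← mul_pow]; norm_num
        rw [h8, ← hd]
        have h9 : (4 : ℤ) ^ (e + 2) = 2 ^ (e + 2) * 2 ^ (e + 2) := by
          rw [← mul_pow]; norm_num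
        rw [h9]; ring
      rw [h7] at h6
      exact mul_left_cancel₀ hu.ne' h6
    have hF1 : ∀ v ∈ D.orth U, v ∉ U → 6 * 2 ^ e - D.W U ≤ D.F U v := by
      intro v hv hvU
      rw [D.F_of_orth U v hv]
      linarith [hW v hv hvU]
    have ht : D.W U = 6 * 2 ^ e - 1 := by nlinarith
    rcases Nat.eq_zero_or_pos e with he | he
    · -- second moment
      subst he
      have hsq := D.sum_F_sq U
      have hS := D.sum_F U
      have ht5 : D.W U = 5 := by rw [ht]; norm_num
      rw [ht5] at hsq hS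
      have hsub : U ≤ D.orth U := D.le_orth U hU
      rw [sum_split U (D.orth U) hsub] at hS hsq
      have hU1 : ∑ v ∈ fs U, D.F U v = ((fs U).card : ℤ) * 5 := by
        rw [Finset.sum_congr rfl (fun v hv => D.F_of_mem U v ((mem_fs U v).1 hv)),
          Finset.sum_const, nsmul_eq_mul, ht5]
      have hU2 : ∑ v ∈ fs U, D.F U v ^ 2 = ((fs U).card : ℤ) * 25 := by
        rw [Finset.sum_congr rfl (g := fun _ => (25 : ℤ))
          (fun v hv => by rw [D.F_of_mem U v ((mem_fs U v).1 hv), ht5]; norm_num),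
          Finset.sum_const, nsmul_eq_mul]
      have hsubs : fs U ⊆ fs (D.orth U) := by
        intro x hx; rw [mem_fs] at *; exact hsub hx
      have hcd : ((fs (D.orth U) \ fs U).card : ℤ) = 15 * (fs U).card := by
        rw [Finset.card_sdiff_of_subset hsubs, Nat.cast_sub (Finset.card_le_card hsubs), hcard]
        norm_num; ring
      have hF1' : ∀ v ∈ fs (D.orth U) \ fs U, 1 ≤ D.F U v := by
        intro v hv
        rw [Finset.mem_sdiff, mem_fs, mem_fs] at hv
        have := hF1 v hv.1 hv.2
        rw [ht5] at this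
        norm_num at this
        exact this
      have h2k : (2 : ℤ) ^ k = 4 * (fs U).card := by rw [← hd]; norm_num; ring
      have hle : ∑ v ∈ fs (D.orth U) \ fs U, D.F U v ≤ 15 * (fs U).card := by
        rw [hU1, h2k] at hS; linarith
      -- all values are one
      have hall : ∀ v ∈ fs (D.orth U) \ fs U, D.F U v = 1 := by
        intro v hv
        by_contra hne
        have h3 : 2 ≤ D.F U v := by
          have := hF1' v hv
          omega
        have : ∑ _v ∈ fs (D.orth U) \ fs U, (1 : ℤ) < ∑ v ∈ fs (D.orth U) \ fs U, D.F U v := by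
          apply Finset.sum_lt_sum hF1'
          exact ⟨v, hv, by linarith⟩
        rw [Finset.sum_const, nsmul_eq_mul, mul_one, hcd] at this
        linarith
      have hsum2 : ∑ v ∈ fs (D.orth U) \ fs U, D.F U v ^ 2 = 15 * (fs U).card := by
        rw [Finset.sum_congr rfl (g := fun _ => (1 : ℤ))
          (fun v hv => by rw [hall v hv]; norm_num), Finset.sum_const, nsmul_eq_mul, hcd]
        ring
      rw [hU2, hsum2, hcard] at hsq
      norm_num at hsq
      linarith
    · -- Lagrangians see at least three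
      have hx2 : (2 : ℤ) ≤ 2 ^ e := by
        calc (2 : ℤ) = 2 ^ 1 := by norm_num
          _ ≤ 2 ^ e := pow_le_pow_right₀ (by norm_num) he
      have hlag : ∀ L : AddSubgroup V, D.Iso L → U ≤ L → ((fs L).card : ℤ) = 2 ^ k →
          3 ≤ D.W L := by
        intro L hL hUL hcL
        have hs := D.sum_F_lag U L hL hUL
        rw [sum_split U L hUL] at hs
        have hU1 : ∑ v ∈ fs U, D.F U v = ((fs U).card : ℤ) * D.W U := by
          rw [Finset.sum_congr rfl (fun v hv => D.F_of_mem U v ((mem_fs U v).1 hv)),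
            Finset.sum_const, nsmul_eq_mul]
        have hsubs : fs U ⊆ fs L := by
          intro x hx; rw [mem_fs] at *; exact hUL hx
        have hcd : ((fs L \ fs U).card : ℤ) = (fs L).card - (fs U).card := by
          rw [Finset.card_sdiff_of_subset hsubs, Nat.cast_sub (Finset.card_le_card hsubs)]
        have hge : ((fs L \ fs U).card : ℤ) ≤ ∑ v ∈ fs L \ fs U, D.F U v := by
          have : ((fs L \ fs U).card : ℤ) = ∑ _v ∈ fs L \ fs U, (1 : ℤ) := by simp
          rw [this]
          apply Finset.sum_le_sum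
          intro v hv
          rw [Finset.mem_sdiff, mem_fs, mem_fs] at hv
          have hvo : v ∈ D.orth U := fun u huU => hL u (hUL huU) v hv.1
          have := hF1 v hvo hv.2
          rw [ht] at this
          linarith
        rw [hU1] at hs
        rw [hcd, hcL] at hge
        rw [hcL] at hs
        rw [← hd, hpow] at hge hs
        rw [ht] at hs
        set u : ℤ := ((fs U).card : ℤ)
        set x : ℤ := 2 ^ e
        have hfin : u * (10 * x - 2) ≤ u * (4 * x * D.W L) := by nlinarith
        have hfin2 := le_of_mul_le_mul_left hfin hu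
        by_contra hlt
        push Not at hlt
        have : D.W L ≤ 2 := by omega
        nlinarith
      have hlp := D.lp 3 (e + 1 + 1) U hU hd hlag
      rw [hpow, ht] at hlp
      linarith

/-- conclusion -/
theorem conclusion (hk : 1 ≤ k) (h2 : ∀ U : AddSubgroup V, D.Iso U → 2 ≤ D.W U) :
    3 * 2 ^ k ≤ 2 * Fintype.card J := by
  classical
  obtain ⟨e, rfl⟩ : ∃ e, k = e + 1 := ⟨k - 1, by omega⟩
  have hbot : D.Iso (⊥ : AddSubgroup V) := by
    intro x hx y _
    rw [AddSubgroup.mem_bot] at hx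
    rw [hx]; exact D.w_zero_left y
  have hc : (fs (⊥ : AddSubgroup V)).card = 1 := by
    have : fs (⊥ : AddSubgroup V) = {0} := by
      ext x; rw [mem_fs]; simp
    rw [this]; simp
  have h := D.main h2 e ⊥ hbot (by rw [hc]; simp)
  have hW : D.W ⊥ ≤ Fintype.card J := by
    unfold W
    exact_mod_cast Finset.card_le_univ _
  have h3 : (3 * 2 ^ (e + 1) : ℤ) ≤ 2 * (Fintype.card J : ℤ) := by
    rw [pow_succ]; linarith
  exact_mod_cast h3

/-- conclusion for all `k` -/
theorem conclusion' (h2 : ∀ U : AddSubgroup V, D.Iso U → 2 ≤ D.W U) :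
    3 * 2 ^ k ≤ 2 * Fintype.card J := by
  rcases Nat.eq_zero_or_pos k with hk | hk
  · have hbot : D.Iso (⊥ : AddSubgroup V) := by
      intro x hx y _
      rw [AddSubgroup.mem_bot] at hx
      rw [hx]; exact D.w_zero_left y
    have h := h2 ⊥ hbot
    have hW : D.W ⊥ ≤ Fintype.card J := by
      unfold W
      exact_mod_cast Finset.card_le_univ _
    have h3 : (2 : ℤ) ≤ (Fintype.card J : ℤ) := le_trans h hW
    have h4 : 2 ≤ Fintype.card J := by exact_mod_cast h3
    rw [hk]; omega
  · exact D.conclusion hk h2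

end Data

end Pool.Agent.Lib.MP_7fdaab_ag.Heis
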