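import Mathlib.Data.ZMod.Basic
import Mathlib.Data.Complex.Basic
import Mathlib.LinearAlgebra.QuadraticForm.Basic

/-!
Definitions for the symmetric cases of MP_7fdaab_ag: a system of `r` complex quadratic forms on
`C^m` (coordinates indexed by `ι`), symmetry of the real span of its components, and the two
symmetry classes (all sign changes of coordinates; the Heisenberg group of `F_2^k`).
-/

namespace Pool.Agent.Lib.MP_7fdaab_ag.Heis

/-- no nonzero vector has only real values -/
def NoRealValue {ι : Type} {r : ℕ} (φ : Fin r → QuadraticForm ℂ (ι → ℂ)) : Prop :=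
  ∀ z : ι → ℂ, z ≠ 0 → ∃ j, (φ j z).im ≠ 0

/-- the real span of the components of `φ` is stable under composition with `T` -/
def SpanInvariant {ι : Type} {r : ℕ} (φ : Fin r → QuadraticForm ℂ (ι → ℂ))
    (T : (ι → ℂ) → (ι → ℂ)) : Prop :=
  ∀ j : Fin r, ∃ c : Fin r → ℝ, ∀ z, φ j (T z) = ∑ i, (c i : ℂ) * φ i z

/-- the sign `(-1)^t` -/
def csgn (t : ZMod 2) : ℂ := if t = 0 then 1 else -1

/-- change of the signs of the coordinates: `z_i` becomes `(-1)^(e i) z_i` -/
def signs {ι : Type} (e : ι → ZMod 2) (z : ι → ℂ) : ι → ℂ := fun i => csgn (e i) * z i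

/-- the real span is stable under all changes of signs of coordinates -/
def SignInvariant {ι : Type} {r : ℕ} (φ : Fin r → QuadraticForm ℂ (ι → ℂ)) : Prop :=
  ∀ e : ι → ZMod 2, SpanInvariant φ (signs e)

/-- the index set `F_2^k` -/
abbrev Idx (k : ℕ) : Type := Fin k → ZMod 2

/-- the pairing of `F_2^k` -/
def dot {k : ℕ} (b x : Idx k) : ZMod 2 := ∑ i, b i * x i

/-- coordinate translation by `a` -/
def shift {k : ℕ} (a : Idx k) (z : Idx k → ℂ) : Idx k → ℂ := fun x => z (x + a)

/-- the real span is stable under all translations `z_x -> z_(x+a)` and all sign changes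
`z_x -> (-1)^(b.x) z_x` of `F_2^k`, that is, under the Heisenberg group -/
def HeisenbergInvariant {k r : ℕ} (φ : Fin r → QuadraticForm ℂ (Idx k → ℂ)) : Prop :=
  (∀ a : Idx k, SpanInvariant φ (shift a)) ∧ (∀ b : Idx k, SpanInvariant φ (signs (dot b)))

end Pool.Agent.Lib.MP_7fdaab_ag.Heis
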