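import Mathlib.Data.Finset.Prod
import Mathlib.Data.Finset.Card
import Mathlib.Data.Fintype.Basic
import Mathlib.Order.Fin.Basic
import Mathlib.Tactic

/-!
A graph inequality: every vertex set `S` of a graph contains an independent set `I` with
`3 |S| ≤ 4 |I| + 2 e(S)`.
-/

namespace Pool.Agent.Lib.MP_7fdaab_ag.Heis

open Finset

/-- the edges inside `S` -/
def edges {m : ℕ} (adj : Fin m → Fin m → Prop) [DecidableRel adj] (S : Finset (Fin m)) :
    Finset (Fin m × Fin m) := (S ×ˢ S).filter (fun p => p.1 < p.2 ∧ adj p.1 p.2)

theorem mem_edges {m : ℕ} (adj : Fin m → Fin m → Prop) [DecidableRel adj] (S : Finset (Fin m))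
    (p : Fin m × Fin m) : p ∈ edges adj S ↔ (p.1 ∈ S ∧ p.2 ∈ S) ∧ p.1 < p.2 ∧ adj p.1 p.2 := by
  unfold edges
  rw [Finset.mem_filter, Finset.mem_product]

theorem exists_indep {m : ℕ} (adj : Fin m → Fin m → Prop) [DecidableRel adj]
    (hsymm : ∀ i j, adj i j → adj j i) (hirr : ∀ i, ¬ adj i i) :
    ∀ (n : ℕ) (S : Finset (Fin m)), S.card = n →
    ∃ I ⊆ S, (∀ i ∈ I, ∀ j ∈ I, ¬ adj i j) ∧ 3 * S.card ≤ 4 * I.card + 2 * (edges adj S).card := by
  intro n
  induction n with
  | zero =>
    intro S hS
    refine ⟨∅, Finset.empty_subset S, ?_, ?_⟩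
    · intro i hi; exact absurd hi (Finset.notMem_empty i)
    · rw [hS]; simp
  | succ n ih =>
    intro S hS
    by_cases hdeg : ∃ v ∈ S, 2 ≤ (S.filter (fun w => adj v w)).card
    · obtain ⟨v, hv, hv2⟩ := hdeg
      have hcard : (S.erase v).card = n := by
        rw [Finset.card_erase_of_mem hv, hS]; rfl
      obtain ⟨I, hIS, hI, hineq⟩ := ih (S.erase v) hcard
      refine ⟨I, hIS.trans (Finset.erase_subset v S), hI, ?_⟩
      let g : Fin m → Fin m × Fin m := fun w => (min v w, max v w)
      have himg : (edges adj (S.erase v)) ∪ (S.filter (fun w => adj v w)).image g ⊆ edges adj S := by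
        intro p hp
        rw [Finset.mem_union] at hp
        rcases hp with hp | hp
        · rw [mem_edges] at hp ⊢
          exact ⟨⟨Finset.mem_of_mem_erase hp.1.1, Finset.mem_of_mem_erase hp.1.2⟩, hp.2⟩
        · rw [Finset.mem_image] at hp
          obtain ⟨w, hw, rfl⟩ := hp
          rw [Finset.mem_filter] at hw
          rw [mem_edges]
          rcases lt_trichotomy v w with h | h | h
          · simp only [g]
            rw [min_eq_left h.le, max_eq_right h.le]
            exact ⟨⟨hv, hw.1⟩, h, hw.2⟩
          · exact absurd (h ▸ hw.2) (hirr v)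
          · simp only [g]
            rw [min_eq_right h.le, max_eq_left h.le]
            exact ⟨⟨hw.1, hv⟩, h, hsymm _ _ hw.2⟩
      have hdisj : Disjoint (edges adj (S.erase v)) ((S.filter (fun w => adj v w)).image g) := by
        rw [Finset.disjoint_left]
        intro p hp hp'
        rw [mem_edges] at hp
        rw [Finset.mem_image] at hp'
        obtain ⟨w, _, rfl⟩ := hp'
        rcases le_total v w with h | h
        · have h1 := hp.1.1
          simp only [g] at h1
          rw [min_eq_left h] at h1
          exact (Finset.notMem_erase v S) h1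
        · have h1 := hp.1.2
          simp only [g] at h1
          rw [max_eq_left h] at h1
          exact (Finset.notMem_erase v S) h1
      have hinj : Set.InjOn g (S.filter (fun w => adj v w) : Finset (Fin m)) := by
        intro a _ b _ hab
        simp only [g, Prod.mk.injEq] at hab
        obtain ⟨h1, h2⟩ := hab
        rcases le_total v a with ha | ha <;> rcases le_total v b with hb | hb
        · rw [max_eq_right ha, max_eq_right hb] at h2; exact h2
        · rw [min_eq_left ha, min_eq_right hb] at h1
          rw [max_eq_right ha, max_eq_left hb] at h2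
          rw [h2, h1]
        · rw [min_eq_right ha, min_eq_left hb] at h1
          rw [max_eq_left ha, max_eq_right hb] at h2
          rw [← h2, ← h1]
        · rw [min_eq_right ha, min_eq_right hb] at h1; exact h1
      have hc := Finset.card_le_card himg
      rw [Finset.card_union_of_disjoint hdisj, Finset.card_image_of_injOn hinj] at hc
      rw [hcard] at hineq
      rw [hS]
      omega
    · push Not at hdeg
      have hone : ∀ v ∈ S, ∀ a ∈ S, ∀ b ∈ S, adj v a → adj v b → a = b := by
        intro v hv a ha b hb hva hvb
        have h1 : (S.filter (fun w => adj v w)).card ≤ 1 := by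
          have := hdeg v hv; omega
        exact Finset.card_le_one.1 h1 a (Finset.mem_filter.2 ⟨ha, hva⟩) b
          (Finset.mem_filter.2 ⟨hb, hvb⟩)
      classical
      let I := S.filter (fun v => ∀ w ∈ S, adj v w → v < w)
      let X := S.filter (fun v => ¬ ∀ w ∈ S, adj v w → v < w)
      have hIX : I.card + X.card = S.card := Finset.card_filter_add_card_filter_not _
      have hch : ∀ v : Fin m, ∃ w : Fin m, v ∈ X → (w ∈ S ∧ adj v w ∧ w < v) := by
        intro v
        by_cases hv : v ∈ X
        · have h1 := (Finset.mem_filter.1 hv).2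
          push Not at h1
          obtain ⟨w, hw, hvw, hle⟩ := h1
          refine ⟨w, fun _ => ⟨hw, hvw, lt_of_le_of_ne hle ?_⟩⟩
          intro h; rw [h] at hvw; exact hirr v hvw
        · exact ⟨v, fun h => absurd h hv⟩
      choose q hq using hch
      have hXS : ∀ v ∈ X, v ∈ S := fun v hv => (Finset.mem_filter.1 hv).1
      have hXI : X.card ≤ I.card := by
        apply Finset.card_le_card_of_injOn q
        · intro v hv
          obtain ⟨h1, h2, h3⟩ := hq v hv
          rw [Finset.mem_coe, Finset.mem_filter]
          refine ⟨h1, ?_⟩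
          intro u hu hqu
          have : u = v := hone (q v) h1 u hu v (hXS v hv) hqu (hsymm _ _ h2)
          rw [this]; exact h3
        · intro a ha b hb hab
          obtain ⟨h1, h2, _⟩ := hq a ha
          obtain ⟨_, h5, _⟩ := hq b hb
          exact hone (q a) h1 a (hXS a ha) b (hXS b hb) (hsymm _ _ h2) (hab ▸ hsymm _ _ h5)
      have hXe : X.card ≤ (edges adj S).card := by
        apply Finset.card_le_card_of_injOn (fun v => (q v, v))
        · intro v hv
          obtain ⟨h1, h2, h3⟩ := hq v hv
          rw [Finset.mem_coe, mem_edges]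
          exact ⟨⟨h1, hXS v hv⟩, h3, hsymm _ _ h2⟩
        · intro a _ b _ hab
          exact (Prod.mk.inj hab).2
      refine ⟨I, Finset.filter_subset _ S, ?_, ?_⟩
      · intro i hi j hj hij
        have h1 := (Finset.mem_filter.1 hi).2 j (Finset.mem_filter.1 hj).1 hij
        have h2 := (Finset.mem_filter.1 hj).2 i (Finset.mem_filter.1 hi).1 (hsymm _ _ hij)
        exact lt_asymm h1 h2
      · omega

end Pool.Agent.Lib.MP_7fdaab_ag.Heis
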