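import Pool.Agent.Lib.MP_7fdaab_ag.Heis.Span
import Mathlib.Data.Complex.Basic
import Mathlib.Analysis.Complex.Polynomial.Basic
import Mathlib.LinearAlgebra.QuadraticForm.Basic
import Mathlib.LinearAlgebra.Dimension.Constructions

/-!
Heisenberg invariant quadratic maps: definitions and the lower bound.
-/

namespace Pool.Agent.Lib.MP_7fdaab_ag.Heis

open Finset

variable {k : ℕ}

theorem dot_add_right (b x y : Idx k) : dot b (x + y) = dot b x + dot b y := by
  unfold dot
  rw [← Finset.sum_add_distrib]
  apply Finset.sum_congr rfl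
  intro i _
  rw [Pi.add_apply, mul_add]

theorem dot_add_left (b c x : Idx k) : dot (b + c) x = dot b x + dot c x := by
  unfold dot
  rw [← Finset.sum_add_distrib]
  apply Finset.sum_congr rfl
  intro i _
  rw [Pi.add_apply, add_mul]

theorem dot_comm (b x : Idx k) : dot b x = dot x b := by
  unfold dot
  apply Finset.sum_congr rfl
  intro i _
  rw [mul_comm]

theorem idx_two (x : Idx k) : x + x = 0 := by
  funext i
  have h : ∀ s : ZMod 2, s + s = 0 := by decide
  exact h (x i)

theorem dot_single (i : Fin k) (x : Idx k) : dot (Pi.single i 1) x = x i := by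
  unfold dot
  rw [Finset.sum_eq_single i]
  · rw [Pi.single_eq_same, one_mul]
  · intro j _ hj
    rw [Pi.single_eq_of_ne hj, zero_mul]
  · intro h; exact absurd (Finset.mem_univ i) h

/-- the phase space -/
abbrev V (k : ℕ) : Type := Idx k × Idx k

/-- the Pauli operator -/
def P (h : V k) (z : Idx k → ℂ) : Idx k → ℂ := signs (dot h.2) (shift h.1 z)

theorem P_apply (h : V k) (z : Idx k → ℂ) (x : Idx k) :
    P h z x = csgn (dot h.2 x) * z (x + h.1) := rfl

theorem P_P (h g : V k) (z : Idx k → ℂ) : P h (P g z) = csgn (dot g.2 h.1) • P (h + g) z := by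
  funext x
  rw [Pi.smul_apply, P_apply, P_apply, P_apply, dot_add_right, csgn_add, smul_eq_mul,
    Prod.snd_add, Prod.fst_add, dot_add_left, csgn_add, add_assoc]
  ring

theorem P_smul (h : V k) (c : ℂ) (z : Idx k → ℂ) : P h (c • z) = c • P h z := by
  funext x
  rw [Pi.smul_apply, P_apply, P_apply, Pi.smul_apply, smul_eq_mul, smul_eq_mul]; ring

theorem P_add (h : V k) (y z : Idx k → ℂ) : P h (y + z) = P h y + P h z := by
  funext x
  rw [Pi.add_apply, P_apply, P_apply, P_apply, Pi.add_apply]; ring

theorem P_zero (z : Idx k → ℂ) : P 0 z = z := by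
  funext x
  rw [P_apply, Prod.fst_zero, Prod.snd_zero, add_zero]
  have : dot (0 : Idx k) x = 0 := by
    unfold dot; apply Finset.sum_eq_zero; intro i _; rw [Pi.zero_apply, zero_mul]
  rw [this, csgn_zero, one_mul]

/-- the symplectic form -/
def om (g h : V k) : ZMod 2 := dot g.2 h.1 + dot h.2 g.1

theorem P_comm (h g : V k) (hgh : om g h = 0) (z : Idx k → ℂ) : P h (P g z) = P g (P h z) := by
  rw [P_P, P_P, add_comm g h]
  have : dot g.2 h.1 = dot h.2 g.1 := by
    unfold om at hgh
    generalize dot g.2 h.1 = s at hgh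
    generalize dot h.2 g.1 = t at hgh
    revert s t; decide
  rw [this]

/-- common eigenvector of the Pauli operators of a finite isotropic set -/
theorem exists_stab (S : Finset (V k)) (hS : ∀ g ∈ S, ∀ h ∈ S, om g h = 0) :
    ∃ z : Idx k → ℂ, z ≠ 0 ∧ ∀ h ∈ S, ∃ c : ℂ, P h z = c • z ∧ c * c = csgn (dot h.2 h.1) := by
  classical
  induction S using Finset.induction_on with
  | empty =>
    refine ⟨fun _ => 1, ?_, ?_⟩
    · intro h0
      have := congrFun h0 0
      simp at this
    · intro h hh
      exact absurd hh (Finset.notMem_empty h)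
  | insert g S hg ih =>
    obtain ⟨z, hz, hzS⟩ := ih (fun a ha b hb => hS a (Finset.mem_insert_of_mem ha) b
      (Finset.mem_insert_of_mem hb))
    obtain ⟨μ, hμ⟩ : ∃ μ : ℂ, μ * μ = csgn (dot g.2 g.1) := by
      obtain ⟨μ, hμ⟩ := IsAlgClosed.exists_pow_nat_eq (csgn (dot g.2 g.1)) (n := 2) (by norm_num)
      exact ⟨μ, by rw [← sq]; exact hμ⟩
    have hgg : P g (P g z) = (μ * μ) • z := by
      rw [P_P, hμ]
      have : g + g = 0 := by
        ext i
        · exact congrFun (idx_two g.1) i
        · exact congrFun (idx_two g.2) i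
      rw [this, P_zero]
    by_cases h0 : P g z + μ • z = 0
    · refine ⟨z, hz, ?_⟩
      intro h hh
      rw [Finset.mem_insert] at hh
      rcases hh with rfl | hh
      · refine ⟨-μ, ?_, ?_⟩
        · rw [neg_smul]; exact eq_neg_of_add_eq_zero_left h0
        · rw [neg_mul_neg]; exact hμ
      · exact hzS h hh
    · refine ⟨P g z + μ • z, h0, ?_⟩
      intro h hh
      rw [Finset.mem_insert] at hh
      rcases hh with rfl | hh
      · refine ⟨μ, ?_, hμ⟩
        rw [P_add, P_smul, hgg, smul_add, smul_smul, add_comm]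
      · obtain ⟨c, hc, hcc⟩ := hzS h hh
        refine ⟨c, ?_, hcc⟩
        have hom : om g h = 0 := hS g (Finset.mem_insert_self g S) h (Finset.mem_insert_of_mem hh)
        rw [P_add, P_smul, P_comm h g hom, hc, P_smul, smul_add, smul_smul, smul_smul, mul_comm]

/-- semi-invariant functions of the span -/
def Semi {r : ℕ} (φ : Fin r → QuadraticForm ℂ (Idx k → ℂ)) : Set ((Idx k → ℂ) → ℂ) :=
  {f | f ∈ spanR φ ∧ ∀ h : V k, ∃ s : ZMod 2, ∀ z, f (P h z) = csgn s * f z}

theorem sum_addchar {G : Type} [AddCommGroup G] [Fintype G] (f : G → ZMod 2)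
    (hf : ∀ x y, f (x + y) = f x + f y) (g : G) (hg : f g ≠ 0) : ∑ x, sg (f x) = 0 := by
  have h1 : ∑ x, sg (f x) = ∑ x, sg (f (x + g)) :=
    (Fintype.sum_equiv (Equiv.addRight g) _ _ (fun x => rfl)).symm
  have h2 : ∑ x, sg (f (x + g)) = - ∑ x, sg (f x) := by
    rw [← Finset.sum_neg_distrib]
    apply Finset.sum_congr rfl
    intro x _
    rw [hf, sg_add, sg_ne _ hg]; ring
  have h3 := h1.trans h2
  linarith

theorem sum_addchar_nonneg {G : Type} [AddCommGroup G] [Fintype G] (f : G → ZMod 2)
    (hf : ∀ x y, f (x + y) = f x + f y) : 0 ≤ ∑ x, sg (f x) := by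
  by_cases h : ∀ x, f x = 0
  · apply Finset.sum_nonneg
    intro x _
    rw [h x, sg_zero]; norm_num
  · push Not at h
    obtain ⟨g, hg⟩ := h
    rw [sum_addchar f hf g hg]

theorem sum_dot (b : Idx k) : ∑ a : Idx k, sg (dot b a) = if b = 0 then 2 ^ k else 0 := by
  split_ifs with h
  · subst h
    have h1 : ∀ a : Idx k, sg (dot 0 a) = 1 := by
      intro a
      have : dot (0 : Idx k) a = 0 := by
        unfold dot; apply Finset.sum_eq_zero; intro i _; rw [Pi.zero_apply, zero_mul]
      rw [this, sg_zero]
    rw [Finset.sum_congr rfl (fun a _ => h1 a)]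
    simp
  · have hne : ∃ i, b i ≠ 0 := by
      by_contra hcon
      push Not at hcon
      exact h (funext hcon)
    obtain ⟨i, hi⟩ := hne
    apply sum_addchar (fun a => dot b a) (dot_add_right b) (Pi.single i 1)
    rw [dot_comm, dot_single]; exact hi

theorem om_symm (g h : V k) : om g h = om h g := by
  unfold om; rw [add_comm]

theorem om_add_left (x y z : V k) : om (x + y) z = om x z + om y z := by
  unfold om
  rw [Prod.snd_add, Prod.fst_add, dot_add_left, dot_add_right]; ring

theorem om_self (x : V k) : om x x = 0 := by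
  unfold om
  have h : ∀ s : ZMod 2, s + s = 0 := by decide
  exact h _

theorem om_nondeg (x : V k) (hx : ∀ y, om x y = 0) : x = 0 := by
  have dz : ∀ y : Idx k, dot 0 y = 0 := by
    intro y; unfold dot; apply Finset.sum_eq_zero; intro i _; rw [Pi.zero_apply, zero_mul]
  ext i
  · have h := hx (0, Pi.single i 1)
    unfold om at h
    rw [dot_comm x.2, dz, zero_add, dot_single] at h
    exact h
  · have h := hx (Pi.single i 1, 0)
    unfold om at h
    rw [dz, add_zero, dot_comm, dot_single] at h
    exact h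

theorem V_two (v : V k) : v + v = 0 := by
  ext i
  · exact congrFun (idx_two v.1) i
  · exact congrFun (idx_two v.2) i

theorem sum_om (h : V k) : ∑ g : V k, sg (om g h) = if h = 0 then 4 ^ k else 0 := by
  split_ifs with h0
  · subst h0
    have h1 : ∀ g : V k, sg (om g 0) = 1 := by
      intro g
      have h2 := om_add_left g g 0
      have h3 : ∀ s : ZMod 2, s + s = 0 := by decide
      have h4 : om (0 : V k) 0 = 0 := om_self 0
      have h5 : om g 0 = 0 := by
        unfold om
        rw [Prod.fst_zero, Prod.snd_zero]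
        unfold dot
        simp
      rw [h5, sg_zero]
    rw [Finset.sum_congr rfl (fun a _ => h1 a)]
    simp only [Finset.sum_const, nsmul_eq_mul, mul_one, Finset.card_univ]
    rw [Fintype.card_prod, Fintype.card_fun, ZMod.card, Fintype.card_fin]
    push_cast
    rw [← mul_pow]; norm_num
  · have hne : ∃ g, om g h ≠ 0 := by
      by_contra hcon
      push Not at hcon
      apply h0
      apply om_nondeg
      intro y; rw [om_symm]; exact hcon y
    obtain ⟨g, hg⟩ := hne
    exact sum_addchar (fun g => om g h) (fun x y => om_add_left x y h) g hg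

/-- invariance of the span under all Pauli operators -/
theorem pullP_mem {r : ℕ} (φ : Fin r → QuadraticForm ℂ (Idx k → ℂ)) (hφ : HeisenbergInvariant φ)
    (h : V k) (f : (Idx k → ℂ) → ℂ) (hf : f ∈ spanR φ) : pull (P h) f ∈ spanR φ := by
  have h1 : pull (signs (dot h.2)) f ∈ spanR φ :=
    span_stable φ _ (hφ.2 h.2) f hf
  have h2 : pull (shift h.1) (pull (signs (dot h.2)) f) ∈ spanR φ :=
    span_stable φ _ (hφ.1 h.1) _ h1
  exact h2

theorem f_PP {r : ℕ} (φ : Fin r → QuadraticForm ℂ (Idx k → ℂ))
    (f : (Idx k → ℂ) → ℂ) (hf : f ∈ spanR φ) (h g : V k) (z : Idx k → ℂ) :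
    f (P h (P g z)) = f (P (h + g) z) := by
  rw [P_P, hom_two φ f hf, csgn_mul_self, one_mul]

/-- the isotypic projection -/
noncomputable def proj (g : V k) (f : (Idx k → ℂ) → ℂ) : (Idx k → ℂ) → ℂ :=
  ∑ h : V k, (((4 : ℝ) ^ k)⁻¹ * (sg (om g h) : ℝ)) • pull (P h) f

theorem proj_apply (g : V k) (f : (Idx k → ℂ) → ℂ) (z : Idx k → ℂ) :
    proj g f z = ((4 : ℂ) ^ k)⁻¹ * ∑ h : V k, csgn (om g h) * f (P h z) := by
  unfold proj
  rw [Finset.sum_apply, Finset.mul_sum]
  apply Finset.sum_congr rfl
  intro h _
  rw [Pi.smul_apply, pull_apply, Complex.real_smul, csgn_eq_real]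
  push_cast; ring

theorem proj_semi {r : ℕ} (φ : Fin r → QuadraticForm ℂ (Idx k → ℂ)) (hφ : HeisenbergInvariant φ)
    (g : V k) (f : (Idx k → ℂ) → ℂ) (hf : f ∈ spanR φ) : proj g f ∈ Semi φ := by
  refine ⟨?_, ?_⟩
  · unfold proj
    apply Submodule.sum_mem
    intro h _
    exact Submodule.smul_mem _ _ (pullP_mem φ hφ h f hf)
  · intro h'
    refine ⟨om g h', ?_⟩
    intro z
    rw [proj_apply, proj_apply]
    have h1 : ∑ h : V k, csgn (om g h) * f (P h (P h' z))
        = ∑ h : V k, csgn (om g h') * (csgn (om g h) * f (P h z)) := by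
      calc ∑ h : V k, csgn (om g h) * f (P h (P h' z))
          = ∑ h : V k, csgn (om g h') * (csgn (om g (h + h')) * f (P (h + h') z)) := by
            apply Finset.sum_congr rfl
            intro h _
            rw [f_PP φ f hf, om_symm g (h + h'), om_add_left, csgn_add, om_symm h g, om_symm h' g]
            have := csgn_mul_self (om g h')
            calc csgn (om g h) * f (P (h + h') z)
                = (csgn (om g h') * csgn (om g h')) * (csgn (om g h) * f (P (h + h') z)) := by
                  rw [this, one_mul]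
              _ = _ := by ring
        _ = ∑ h : V k, csgn (om g h') * (csgn (om g h) * f (P h z)) :=
            Fintype.sum_equiv (Equiv.addRight h') _ _ (fun h => rfl)
    rw [h1, ← Finset.mul_sum]; ring

theorem sum_proj (f : (Idx k → ℂ) → ℂ) : ∑ g : V k, proj g f = f := by
  funext z
  rw [Finset.sum_apply]
  have h1 : ∀ g : V k, proj g f z = ((4 : ℂ) ^ k)⁻¹ * ∑ h : V k, csgn (om g h) * f (P h z) :=
    fun g => proj_apply g f z
  rw [Finset.sum_congr rfl (fun g _ => h1 g), ← Finset.mul_sum, Finset.sum_comm]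
  have h2 : ∀ h : V k, ∑ g : V k, csgn (om g h) * f (P h z)
      = if h = 0 then (4 : ℂ) ^ k * f z else 0 := by
    intro h
    rw [← Finset.sum_mul]
    have h3 : ∑ g : V k, csgn (om g h) = (((if h = 0 then (4 : ℤ) ^ k else 0) : ℤ) : ℂ) := by
      rw [← sum_om h]
      push_cast
      apply Finset.sum_congr rfl
      intro g _
      rw [csgn_eq_real]; push_cast; rfl
    rw [h3]
    split_ifs with h0
    · subst h0; rw [P_zero]; push_cast; rfl
    · push_cast; rw [zero_mul]
  rw [Finset.sum_congr rfl (fun h _ => h2 h), Finset.sum_ite_eq' univ (0 : V k)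
    (fun _ => (4 : ℂ) ^ k * f z), if_pos (Finset.mem_univ _), ← mul_assoc,
    inv_mul_cancel₀ (pow_ne_zero _ (by norm_num)), one_mul]

theorem span_semi {r : ℕ} (φ : Fin r → QuadraticForm ℂ (Idx k → ℂ))
    (hφ : HeisenbergInvariant φ) : Submodule.span ℝ (Semi φ) = spanR φ := by
  apply le_antisymm
  · rw [Submodule.span_le]
    intro f hf; exact hf.1
  · intro f hf
    rw [← sum_proj f]
    apply Submodule.sum_mem
    intro g _
    exact Submodule.subset_span (proj_semi φ hφ g f hf)

theorem csgn_inj (s t : ZMod 2) (h : csgn s = csgn t) : s = t := by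
  have hh : ∀ s : ZMod 2, s = 0 ∨ s = 1 := by decide
  rcases hh s with rfl | rfl <;> rcases hh t with rfl | rfl
  · rfl
  · rw [csgn_zero, csgn_one] at h; norm_num at h
  · rw [csgn_zero, csgn_one] at h; norm_num at h
  · rfl

/-- the character of a nonzero semi-invariant function is additive -/
theorem exists_char {r : ℕ} (φ : Fin r → QuadraticForm ℂ (Idx k → ℂ))
    (f : (Idx k → ℂ) → ℂ) (hf : f ∈ Semi φ) (h0 : f ≠ 0) :
    ∃ l : V k → ZMod 2, (∀ x y, l (x + y) = l x + l y) ∧
      ∀ h z, f (P h z) = csgn (l h) * f z := by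
  choose l hl using hf.2
  refine ⟨l, ?_, hl⟩
  obtain ⟨z, hz⟩ : ∃ z, f z ≠ 0 := by
    by_contra hcon
    push Not at hcon
    exact h0 (funext hcon)
  intro x y
  apply csgn_inj
  have h1 := f_PP φ f hf.1 x y z
  rw [hl, hl, hl] at h1
  apply mul_right_cancel₀ hz
  rw [csgn_add, ← h1]; ring

theorem th_sum_aux (l : V k → ZMod 2) (hl : ∀ x y, l (x + y) = l x + l y) :
    ∑ v : V k, sg (dot v.2 v.1 + l v) ≤ 2 ^ k := by
  have h1 : ∀ v : V k, sg (dot v.2 v.1 + l v)
      = sg (l (v.1, 0)) * sg (dot v.2 v.1 + l (0, v.2)) := by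
    intro v
    have : l v = l (v.1, 0) + l (0, v.2) := by
      rw [← hl]; congr 1
      ext i
      · simp
      · simp
    rw [this, ← sg_add]; congr 1; ring
  rw [Finset.sum_congr rfl (fun v _ => h1 v), Fintype.sum_prod_type]
  simp only
  calc ∑ a : Idx k, ∑ b : Idx k, sg (l (a, 0)) * sg (dot b a + l (0, b))
      ≤ ∑ a : Idx k, ∑ b : Idx k, sg (dot b a + l (0, b)) := by
        apply Finset.sum_le_sum
        intro a _
        rw [← Finset.mul_sum]
        have hnn : 0 ≤ ∑ b : Idx k, sg (dot b a + l (0, b)) := by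
          apply sum_addchar_nonneg (fun b : Idx k => dot b a + l (0, b))
          intro x y
          have : ((0 : Idx k), x + y) = (0, x) + (0, y) := by
            ext i
            · simp
            · simp
          rw [dot_add_left, this, hl]; ring
        have := sg_le_one (l (a, 0))
        nlinarith
    _ = ∑ b : Idx k, ∑ a : Idx k, sg (l (0, b)) * sg (dot b a) := by
        rw [Finset.sum_comm]
        apply Finset.sum_congr rfl
        intro b _
        apply Finset.sum_congr rfl
        intro a _
        rw [sg_add]; ring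
    _ = ∑ b : Idx k, (if b = 0 then (2 ^ k : ℤ) else 0) := by
        apply Finset.sum_congr rfl
        intro b _
        rw [← Finset.mul_sum, sum_dot]
        split_ifs with hb
        · subst hb
          have : l (0, 0) = 0 := by
            have h := hl 0 0
            rw [add_zero] at h
            exact (left_eq_add.mp h)
          rw [this, sg_zero, one_mul]
        · rw [mul_zero]
    _ = 2 ^ k := by
        rw [Finset.sum_ite_eq' univ (0 : Idx k) (fun _ => (2 ^ k : ℤ)), if_pos (Finset.mem_univ _)]

theorem card_V : Fintype.card (V k) = 4 ^ k := by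
  rw [Fintype.card_prod, Fintype.card_fun, ZMod.card, Fintype.card_fin, ← mul_pow]; norm_num

theorem lower_bound {r : ℕ} (φ : Fin r → QuadraticForm ℂ (Idx k → ℂ))
    (hφ : HeisenbergInvariant φ) (hno : NoRealValue φ) : 3 * 2 ^ k ≤ 2 * r := by
  classical
  obtain ⟨b, hbS, hbspan, hbli⟩ := exists_linearIndependent ℝ (Semi φ)
  have hspan : Submodule.span ℝ b = spanR φ := hbspan.trans (span_semi φ hφ)
  have hfin : Module.Finite ℝ (spanR φ) := by
    unfold spanR
    exact FiniteDimensional.span_of_finite ℝ (Set.finite_range _)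
  have hrange : Set.range (Subtype.val : b → ((Idx k → ℂ) → ℂ)) = b := Subtype.range_val
  have hB : Module.Finite ℝ (Submodule.span ℝ (Set.range (Subtype.val : b → ((Idx k → ℂ) → ℂ)))) := by
    rw [hrange, hspan]; exact hfin
  let B := Module.Basis.span hbli
  have : Finite b := Module.Finite.finite_basis B
  have : Fintype b := Fintype.ofFinite b
  have hcard : Fintype.card b ≤ r := by
    have h1 : Module.finrank ℝ (Submodule.span ℝ (Set.range (Subtype.val : b → ((Idx k → ℂ) → ℂ))))
        = Fintype.card b := Module.finrank_eq_card_basis B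
    rw [hrange, hspan] at h1
    rw [← h1]
    unfold spanR
    calc Module.finrank ℝ (Submodule.span ℝ (Set.range (fn φ))) ≤ Fintype.card (Fin r) :=
          finrank_range_le_card (fn φ)
      _ = r := Fintype.card_fin r
  have hne : ∀ f : b, (f : (Idx k → ℂ) → ℂ) ≠ 0 := fun f => hbli.ne_zero f
  have hch : ∀ f : b, ∃ l : V k → ZMod 2, (∀ x y, l (x + y) = l x + l y) ∧
      ∀ h z, (f : (Idx k → ℂ) → ℂ) (P h z) = csgn (l h) * (f : (Idx k → ℂ) → ℂ) z :=
    fun f => exists_char φ f (hbS f.2) (hne f)
  choose l hladd hl using hch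
  let D : Data k (V k) b :=
    { w := om
      two := V_two
      add_left := om_add_left
      add_right := fun x y z => by rw [om_symm, om_add_left, om_symm y, om_symm z]
      self := om_self
      symm := om_symm
      nondeg := om_nondeg
      card := card_V
      th := fun f h => dot h.2 h.1 + l f h
      th_add := fun f x y => by
        rw [hladd, Prod.snd_add, Prod.fst_add, dot_add_left, dot_add_right, dot_add_right]
        unfold om
        rw [dot_comm y.2 x.1]; ring
      th_sum := fun f => th_sum_aux (l f) (hladd f) }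
  have hfinal : 3 * 2 ^ k ≤ 2 * Fintype.card b := by
    apply D.conclusion'
    intro U hU
    by_contra hcon
    push Not at hcon
    obtain ⟨z, hz, hzU⟩ := exists_stab (Data.fs U) (fun g hg h hh => by
      rw [Data.mem_fs] at hg hh; exact hU g hg h hh)
    set T := univ.filter (fun f : b => ∀ h ∈ U, D.th f h = 0) with hT
    have hTc : T.card ≤ 1 := by
      have : (T.card : ℤ) < 2 := hcon
      omega
    -- functions outside T vanish at z
    have hout : ∀ f : b, f ∉ T → (f : (Idx k → ℂ) → ℂ) z = 0 := by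
      intro f hf
      rw [hT, Finset.mem_filter] at hf
      push Not at hf
      obtain ⟨h, hhU, hth⟩ := hf (Finset.mem_univ f)
      obtain ⟨c, hc, hcc⟩ := hzU h ((Data.mem_fs U h).2 hhU)
      have h1 := hl f h z
      rw [hc, hom_two φ f (hbS f.2).1, hcc] at h1
      by_contra hfz
      have h2 := mul_right_cancel₀ hfz h1
      have h3 := csgn_inj _ _ h2
      apply hth
      change dot h.2 h.1 + l f h = 0
      rw [h3]
      have h4 : ∀ s : ZMod 2, s + s = 0 := by decide
      exact h4 _
    -- choose a phase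
    obtain ⟨c, hc0, hcT⟩ : ∃ c : ℂ, c ≠ 0 ∧ ∀ f ∈ T, ((f : (Idx k → ℂ) → ℂ) (c • z)).im = 0 := by
      rcases Nat.lt_or_ge 0 T.card with hpos | hzero
      · obtain ⟨f, hf⟩ := Finset.card_pos.1 hpos
        have huniq : ∀ g ∈ T, g = f := fun g hg => Finset.card_le_one.1 hTc g hg f hf
        by_cases hfz : (f : (Idx k → ℂ) → ℂ) z = 0
        · refine ⟨1, one_ne_zero, ?_⟩
          intro g hg
          rw [huniq g hg, one_smul, hfz]; rfl
        · obtain ⟨c, hc⟩ := IsAlgClosed.exists_pow_nat_eq
            (starRingEnd ℂ ((f : (Idx k → ℂ) → ℂ) z)) (n := 2) (by norm_num)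
          refine ⟨c, ?_, ?_⟩
          · intro h0
            rw [h0] at hc
            apply hfz
            have h5 : starRingEnd ℂ ((f : (Idx k → ℂ) → ℂ) z) = 0 := by
              rw [← hc]; norm_num
            exact (map_eq_zero (starRingEnd ℂ)).1 h5
          · intro g hg
            rw [huniq g hg, hom_two φ f (hbS f.2).1, ← sq, hc, mul_comm, Complex.mul_conj]
            exact Complex.ofReal_im _
      · refine ⟨1, one_ne_zero, ?_⟩
        intro g hg
        have : T = ∅ := Finset.card_eq_zero.1 (by omega)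
        rw [this] at hg
        exact absurd hg (Finset.notMem_empty g)
    obtain ⟨j, hj⟩ := hno (c • z) (smul_ne_zero hc0 hz)
    apply hj
    apply real_of_real φ b hspan (c • z)
    intro f hf
    by_cases hfT : (⟨f, hf⟩ : b) ∈ T
    · exact hcT ⟨f, hf⟩ hfT
    · have h1 := hout ⟨f, hf⟩ hfT
      have h2 := hom_two φ f (hbS hf).1 c z
      rw [h2]
      change f z = 0 at h1
      rw [h1, mul_zero]; rfl
  omega

end Pool.Agent.Lib.MP_7fdaab_ag.Heis
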