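import Pool.Agent.Lib.MP_7fdaab_ag.Heis.Sign
import Mathlib.Tactic.FinCases

/-!
Sharpness: sums of Hopf blocks.
-/

namespace Pool.Agent.Lib.MP_7fdaab_ag.Heis

open Finset

/-- the Hopf map has no zero -/
theorem hopf (u v : ℂ) (h0 : (u * u - v * v).im = 0) (h1 : (Complex.I * (u * u + v * v)).im = 0)
    (h2 : (2 * (u * v)).im = 0) : u = 0 ∧ v = 0 := by
  simp only [Complex.sub_im, Complex.mul_im, Complex.mul_re, Complex.add_re, Complex.add_im,
    Complex.I_re, Complex.I_im, Complex.re_ofNat, Complex.im_ofNat] at h0 h1 h2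
  have key : (u.re ^ 2 + u.im ^ 2 + v.re ^ 2 + v.im ^ 2) ^ 2 = 0 := by
    have e : (u.re ^ 2 + u.im ^ 2 + v.re ^ 2 + v.im ^ 2) ^ 2
        = (2 * (u.re * u.im) - 2 * (v.re * v.im)) ^ 2
          + (u.re ^ 2 - u.im ^ 2 + v.re ^ 2 - v.im ^ 2) ^ 2
          + (2 * (u.re * v.im + u.im * v.re)) ^ 2 := by ring
    rw [e]
    have e0 : 2 * (u.re * u.im) - 2 * (v.re * v.im) = 0 := by linarith
    have e1 : u.re ^ 2 - u.im ^ 2 + v.re ^ 2 - v.im ^ 2 = 0 := by nlinarith
    have e2 : 2 * (u.re * v.im + u.im * v.re) = 0 := by linarith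
    rw [e0, e1, e2]; norm_num
  have key2 : u.re ^ 2 + u.im ^ 2 + v.re ^ 2 + v.im ^ 2 = 0 := by
    exact pow_eq_zero_iff (two_ne_zero) |>.1 key
  have a1 : u.re = 0 := by nlinarith [sq_nonneg u.re, sq_nonneg u.im, sq_nonneg v.re, sq_nonneg v.im]
  have a2 : u.im = 0 := by nlinarith [sq_nonneg u.re, sq_nonneg u.im, sq_nonneg v.re, sq_nonneg v.im]
  have a3 : v.re = 0 := by nlinarith [sq_nonneg u.re, sq_nonneg u.im, sq_nonneg v.re, sq_nonneg v.im]
  have a4 : v.im = 0 := by nlinarith [sq_nonneg u.re, sq_nonneg u.im, sq_nonneg v.re, sq_nonneg v.im]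
  exact ⟨Complex.ext a1 a2, Complex.ext a3 a4⟩

/-- a signed permutation of the components is a real linear change -/
theorem single_coeff {ι : Type} {r : ℕ} (φ : Fin r → QuadraticForm ℂ (ι → ℂ)) (j' : Fin r) (t : ℝ)
    (F : (ι → ℂ) → ℂ) (h : ∀ z, F z = (t : ℂ) * φ j' z) :
    ∃ c : Fin r → ℝ, ∀ z, F z = ∑ i, (c i : ℂ) * φ i z := by
  refine ⟨Pi.single j' t, ?_⟩
  intro z
  rw [Finset.sum_eq_single j']
  · rw [Pi.single_eq_same, h z]
  · intro b _ hb
    rw [Pi.single_eq_of_ne hb]; simp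
  · intro hh; exact absurd (Finset.mem_univ _) hh

/-- coordinate functional, zero out of range -/
noncomputable def cf (m i : ℕ) : (Fin m → ℂ) →ₗ[ℂ] ℂ :=
  if h : i < m then LinearMap.proj ⟨i, h⟩ else 0

theorem cf_of_lt {m i : ℕ} (h : i < m) (z : Fin m → ℂ) : cf m i z = z ⟨i, h⟩ := by
  unfold cf; rw [dif_pos h]; rfl

theorem cf_of_ge {m i : ℕ} (h : ¬ i < m) (z : Fin m → ℂ) : cf m i z = 0 := by
  unfold cf; rw [dif_neg h]; rfl

/-- the Hopf forms -/
noncomputable def hop {ι : Type} (c c' : (ι → ℂ) →ₗ[ℂ] ℂ) (t : ℕ) : QuadraticForm ℂ (ι → ℂ) :=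
  if t = 0 then QuadraticMap.linMulLin c c - QuadraticMap.linMulLin c' c'
  else if t = 1 then Complex.I • (QuadraticMap.linMulLin c c + QuadraticMap.linMulLin c' c')
  else (2 : ℂ) • QuadraticMap.linMulLin c c'

theorem hop_zero {ι : Type} (c c' : (ι → ℂ) →ₗ[ℂ] ℂ) (z : ι → ℂ) :
    hop c c' 0 z = c z * c z - c' z * c' z := by
  unfold hop; rw [if_pos rfl]; rfl

theorem hop_one {ι : Type} (c c' : (ι → ℂ) →ₗ[ℂ] ℂ) (z : ι → ℂ) :
    hop c c' 1 z = Complex.I * (c z * c z + c' z * c' z) := by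
  unfold hop; rw [if_neg (by norm_num), if_pos rfl]; rfl

theorem hop_two {ι : Type} (c c' : (ι → ℂ) →ₗ[ℂ] ℂ) (z : ι → ℂ) :
    hop c c' 2 z = 2 * (c z * c' z) := by
  unfold hop; rw [if_neg (by norm_num), if_neg (by norm_num)]; rfl

/-- the example for sign invariant systems -/
noncomputable def exSign (m : ℕ) : Fin ((3 * m + 1) / 2) → QuadraticForm ℂ (Fin m → ℂ) :=
  fun j => hop (cf m (2 * (j.1 / 3))) (cf m (2 * (j.1 / 3) + 1)) (j.1 % 3)

theorem cf_signs (m i : ℕ) (e : Fin m → ZMod 2) :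
    ∃ t : ZMod 2, ∀ z, cf m i (signs e z) = csgn t * cf m i z := by
  by_cases h : i < m
  · refine ⟨e ⟨i, h⟩, ?_⟩
    intro z
    rw [cf_of_lt h, cf_of_lt h]; rfl
  · refine ⟨0, ?_⟩
    intro z
    rw [cf_of_ge h, cf_of_ge h, mul_zero]

theorem exSign_inv (m : ℕ) : SignInvariant (exSign m) := by
  intro e j
  obtain ⟨s, hs⟩ := cf_signs m (2 * (j.1 / 3)) e
  obtain ⟨t, ht⟩ := cf_signs m (2 * (j.1 / 3) + 1) e
  have hss := csgn_mul_self s
  have htt := csgn_mul_self t
  have hj : j.1 % 3 = 0 ∨ j.1 % 3 = 1 ∨ j.1 % 3 = 2 := by omega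
  rcases hj with hj | hj | hj
  · apply single_coeff (exSign m) j 1
    intro z
    unfold exSign
    rw [hj, hop_zero, hop_zero, hs, ht]
    push_cast
    linear_combination (cf m (2 * (j.1 / 3)) z) ^ 2 * hss - (cf m (2 * (j.1 / 3) + 1) z) ^ 2 * htt
  · apply single_coeff (exSign m) j 1
    intro z
    unfold exSign
    rw [hj, hop_one, hop_one, hs, ht]
    push_cast
    linear_combination Complex.I * (cf m (2 * (j.1 / 3)) z) ^ 2 * hss
      + Complex.I * (cf m (2 * (j.1 / 3) + 1) z) ^ 2 * htt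
  · apply single_coeff (exSign m) j ((sg (s + t) : ℤ) : ℝ)
    intro z
    unfold exSign
    rw [hj, hop_two, hop_two, hs, ht, ← csgn_eq_real, csgn_add]
    ring

theorem exSign_no (m : ℕ) : NoRealValue (exSign m) := by
  intro z hz
  by_contra hcon
  push Not at hcon
  apply hz
  funext i
  rw [Pi.zero_apply]
  obtain ⟨i, hi⟩ := i
  set q := i / 2 with hq
  have hq2 : 2 * q ≤ i := by omega
  have hlt0 : 2 * q < m := by omega
  have h0 := hcon ⟨3 * q, by omega⟩
  have h1 := hcon ⟨3 * q + 1, by omega⟩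
  unfold exSign at h0 h1
  have d0 : 3 * q / 3 = q := by omega
  have d1 : (3 * q + 1) / 3 = q := by omega
  have r0 : 3 * q % 3 = 0 := by omega
  have r1 : (3 * q + 1) % 3 = 1 := by omega
  simp only [d0, r0] at h0
  simp only [d1, r1] at h1
  rw [hop_zero] at h0
  rw [hop_one] at h1
  have huv : cf m (2 * q) z = 0 ∧ cf m (2 * q + 1) z = 0 := by
    by_cases hlt : 2 * q + 1 < m
    · have h2 := hcon ⟨3 * q + 2, by omega⟩
      unfold exSign at h2
      have d2 : (3 * q + 2) / 3 = q := by omega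
      have r2 : (3 * q + 2) % 3 = 2 := by omega
      simp only [d2, r2] at h2
      rw [hop_two] at h2
      exact hopf _ _ h0 h1 h2
    · have hv : cf m (2 * q + 1) z = 0 := cf_of_ge hlt z
      rw [hv] at h0 h1 ⊢
      exact hopf _ _ h0 h1 (by rw [mul_zero, mul_zero]; rfl)
  have hi2 : i = 2 * q ∨ i = 2 * q + 1 := by omega
  rcases hi2 with h | h
  · have := huv.1
    rw [cf_of_lt hlt0] at this
    have e : (⟨i, hi⟩ : Fin m) = ⟨2 * q, hlt0⟩ := Fin.ext h
    rw [e]; exact this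
  · have hlt : 2 * q + 1 < m := by omega
    have := huv.2
    rw [cf_of_lt hlt] at this
    have e : (⟨i, hi⟩ : Fin m) = ⟨2 * q + 1, hlt⟩ := Fin.ext h
    rw [e]; exact this

/-! ### the Heisenberg example -/

/-- the coordinate `(α, y)` of `F_2^(n+1)` -/
noncomputable def pc (n : ℕ) (α : ZMod 2) (y : Idx n) : (Idx (n + 1) → ℂ) →ₗ[ℂ] ℂ :=
  LinearMap.proj (Fin.cons α y : Idx (n + 1))

theorem pc_apply (n : ℕ) (α : ZMod 2) (y : Idx n) (z : Idx (n + 1) → ℂ) :
    pc n α y z = z (Fin.cons α y : Idx (n + 1)) := rfl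

/-- index equivalence -/
noncomputable def eqv (n : ℕ) : Idx n × Fin 3 ≃ Fin (3 * 2 ^ n) :=
  Fintype.equivFinOfCardEq (by
    rw [Fintype.card_prod, Fintype.card_fun, ZMod.card, Fintype.card_fin, Fintype.card_fin, mul_comm])

/-- the example -/
noncomputable def exHeis (n : ℕ) : Fin (3 * 2 ^ n) → QuadraticForm ℂ (Idx (n + 1) → ℂ) :=
  fun j => hop (pc n 0 ((eqv n).symm j).1) (pc n 1 ((eqv n).symm j).1) ((eqv n).symm j).2.1

theorem exHeis_apply (n : ℕ) (y : Idx n) (t : Fin 3) :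
    exHeis n (eqv n (y, t)) = hop (pc n 0 y) (pc n 1 y) t.1 := by
  unfold exHeis
  rw [Equiv.symm_apply_apply]

theorem pc_shift (n : ℕ) (a : Idx (n + 1)) (α : ZMod 2) (y : Idx n) (z : Idx (n + 1) → ℂ) :
    pc n α y (shift a z) = pc n (α + a 0) (y + Fin.tail a) z := by
  rw [pc_apply, pc_apply]
  unfold shift
  congr 1
  funext i
  refine Fin.cases ?_ (fun i => ?_) i
  · rfl
  · rfl

theorem pc_signs (n : ℕ) (b : Idx (n + 1)) (α : ZMod 2) (y : Idx n) (z : Idx (n + 1) → ℂ) :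
    pc n α y (signs (dot b) z) = csgn (b 0 * α + dot (Fin.tail b) y) * pc n α y z := by
  rw [pc_apply, pc_apply]
  unfold signs
  have : dot b (Fin.cons α y : Idx (n + 1)) = b 0 * α + dot (Fin.tail b) y := by
    unfold dot
    rw [Fin.sum_univ_succ]
    rfl
  rw [this]

theorem zmod_cases (a : ZMod 2) : a = 0 ∨ a = 1 := by
  revert a; decide

theorem exHeis_inv (n : ℕ) : HeisenbergInvariant (exHeis n) := by
  constructor
  · intro a j
    obtain ⟨⟨y, t⟩, rfl⟩ := (eqv n).surjective j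
    have h11 : (1 : ZMod 2) + 1 = 0 := by decide
    rcases zmod_cases (a 0) with ha | ha
    · apply single_coeff (exHeis n) (eqv n (y + Fin.tail a, t)) 1
      intro z
      rw [exHeis_apply, exHeis_apply]
      have e0 : pc n 0 y (shift a z) = pc n 0 (y + Fin.tail a) z := by
        rw [pc_shift, ha, add_zero]
      have e1 : pc n 1 y (shift a z) = pc n 1 (y + Fin.tail a) z := by
        rw [pc_shift, ha, add_zero]
      fin_cases t
      · change hop _ _ 0 _ = _ * hop _ _ 0 _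
        rw [hop_zero, hop_zero, e0, e1]; push_cast; ring
      · change hop _ _ 1 _ = _ * hop _ _ 1 _
        rw [hop_one, hop_one, e0, e1]; push_cast; ring
      · change hop _ _ 2 _ = _ * hop _ _ 2 _
        rw [hop_two, hop_two, e0, e1]; push_cast; ring
    · have e0 : ∀ z, pc n 0 y (shift a z) = pc n 1 (y + Fin.tail a) z := by
        intro z
        rw [pc_shift, ha, zero_add]
      have e1 : ∀ z, pc n 1 y (shift a z) = pc n 0 (y + Fin.tail a) z := by
        intro z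
        rw [pc_shift, ha, h11]
      fin_cases t
      · apply single_coeff (exHeis n) (eqv n (y + Fin.tail a, 0)) (-1)
        intro z
        rw [exHeis_apply, exHeis_apply]
        change hop _ _ 0 _ = _ * hop _ _ 0 _
        rw [hop_zero, hop_zero, e0, e1]; push_cast; ring
      · apply single_coeff (exHeis n) (eqv n (y + Fin.tail a, 1)) 1
        intro z
        rw [exHeis_apply, exHeis_apply]
        change hop _ _ 1 _ = _ * hop _ _ 1 _
        rw [hop_one, hop_one, e0, e1]; push_cast; ring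
      · apply single_coeff (exHeis n) (eqv n (y + Fin.tail a, 2)) 1
        intro z
        rw [exHeis_apply, exHeis_apply]
        change hop _ _ 2 _ = _ * hop _ _ 2 _
        rw [hop_two, hop_two, e0, e1]; push_cast; ring
  · intro b j
    obtain ⟨⟨y, t⟩, rfl⟩ := (eqv n).surjective j
    have e0 : ∀ z, pc n 0 y (signs (dot b) z) = csgn (dot (Fin.tail b) y) * pc n 0 y z := by
      intro z; rw [pc_signs, mul_zero, zero_add]
    have e1 : ∀ z, pc n 1 y (signs (dot b) z)
        = csgn (b 0) * csgn (dot (Fin.tail b) y) * pc n 1 y z := by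
      intro z; rw [pc_signs, mul_one, csgn_add]
    have h1 := csgn_mul_self (dot (Fin.tail b) y)
    have h2 := csgn_mul_self (b 0)
    fin_cases t
    · apply single_coeff (exHeis n) (eqv n (y, 0)) 1
      intro z
      change exHeis n (eqv n (y, 0)) _ = _
      rw [exHeis_apply]
      change hop _ _ 0 _ = _ * hop _ _ 0 _
      rw [hop_zero, hop_zero, e0, e1]; push_cast
      linear_combination ((pc n 0 y z) ^ 2 - csgn (b 0) ^ 2 * (pc n 1 y z) ^ 2) * h1
        - (pc n 1 y z) ^ 2 * h2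
    · apply single_coeff (exHeis n) (eqv n (y, 1)) 1
      intro z
      change exHeis n (eqv n (y, 1)) _ = _
      rw [exHeis_apply]
      change hop _ _ 1 _ = _ * hop _ _ 1 _
      rw [hop_one, hop_one, e0, e1]; push_cast
      linear_combination Complex.I * ((pc n 0 y z) ^ 2 + csgn (b 0) ^ 2 * (pc n 1 y z) ^ 2) * h1
        + Complex.I * (pc n 1 y z) ^ 2 * h2
    · apply single_coeff (exHeis n) (eqv n (y, 2)) ((sg (b 0) : ℤ) : ℝ)
      intro z
      change exHeis n (eqv n (y, 2)) _ = _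
      rw [exHeis_apply]
      change hop _ _ 2 _ = _ * hop _ _ 2 _
      rw [hop_two, hop_two, e0, e1, ← csgn_eq_real]
      linear_combination (2 * csgn (b 0) * (pc n 0 y z) * (pc n 1 y z)) * h1

theorem exHeis_no (n : ℕ) : NoRealValue (exHeis n) := by
  intro z hz
  by_contra hcon
  push Not at hcon
  apply hz
  funext x
  rw [Pi.zero_apply]
  set y : Idx n := Fin.tail x with hy
  have h0 := hcon (eqv n (y, 0))
  have h1 := hcon (eqv n (y, 1))
  have h2 := hcon (eqv n (y, 2))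
  rw [exHeis_apply] at h0 h1 h2
  change (hop _ _ 0 z).im = 0 at h0
  change (hop _ _ 1 z).im = 0 at h1
  change (hop _ _ 2 z).im = 0 at h2
  rw [hop_zero] at h0
  rw [hop_one] at h1
  rw [hop_two] at h2
  obtain ⟨hu, hv⟩ := hopf _ _ h0 h1 h2
  have hx : x = (Fin.cons (x 0) y : Idx (n + 1)) := (Fin.cons_self_tail x).symm
  rw [hx]
  rcases zmod_cases (x 0) with h | h
  · rw [h]; exact hu
  · rw [h]; exact hv

/-! ### adding zero components -/

/-- pad with zero components -/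
noncomputable def pad {ι : Type} {r : ℕ} (φ : Fin r → QuadraticForm ℂ (ι → ℂ)) (r' : ℕ) :
    Fin r' → QuadraticForm ℂ (ι → ℂ) := fun j => if h : j.1 < r then φ ⟨j.1, h⟩ else 0

theorem pad_inv {ι : Type} {r r' : ℕ} (φ : Fin r → QuadraticForm ℂ (ι → ℂ)) (hr : r ≤ r')
    (T : (ι → ℂ) → (ι → ℂ)) (hT : SpanInvariant φ T) : SpanInvariant (pad φ r') T := by
  intro j
  by_cases h : j.1 < r
  · obtain ⟨c, hc⟩ := hT ⟨j.1, h⟩
    refine ⟨fun i => if h : i.1 < r then c ⟨i.1, h⟩ else 0, ?_⟩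
    intro z
    have h1 : pad φ r' j (T z) = φ ⟨j.1, h⟩ (T z) := by
      unfold pad; rw [dif_pos h]
    rw [h1, hc z]
    have h2 : ∀ i : Fin r', ((if h : i.1 < r then c ⟨i.1, h⟩ else 0 : ℝ) : ℂ) * pad φ r' i z
        = if h : i.1 < r then (c ⟨i.1, h⟩ : ℂ) * φ ⟨i.1, h⟩ z else 0 := by
      intro i
      unfold pad
      by_cases hi : i.1 < r
      · rw [dif_pos hi, dif_pos hi, dif_pos hi]
      · rw [dif_neg hi, dif_neg hi, dif_neg hi]; simp
    rw [Finset.sum_congr rfl (fun i _ => h2 i)]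
    have h3 : ∑ i : Fin r, (c i : ℂ) * φ i z
        = ∑ i ∈ (univ : Finset (Fin r)).map (Fin.castLEEmb hr),
          (if h : i.1 < r then (c ⟨i.1, h⟩ : ℂ) * φ ⟨i.1, h⟩ z else 0) := by
      rw [Finset.sum_map]
      apply Finset.sum_congr rfl
      intro i _
      have hi : ((Fin.castLEEmb hr) i).1 < r := i.2
      rw [dif_pos hi]
      rfl
    rw [h3]
    apply Finset.sum_subset (Finset.subset_univ _)
    intro i _ hi
    rw [dif_neg]
    intro hlt
    apply hi
    rw [Finset.mem_map]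
    exact ⟨⟨i.1, hlt⟩, Finset.mem_univ _, Fin.ext rfl⟩
  · refine ⟨fun _ => 0, ?_⟩
    intro z
    have h1 : pad φ r' j (T z) = 0 := by
      unfold pad; rw [dif_neg h]; rfl
    rw [h1]
    symm
    apply Finset.sum_eq_zero
    intro i _
    simp

theorem pad_no {ι : Type} {r r' : ℕ} (φ : Fin r → QuadraticForm ℂ (ι → ℂ)) (hr : r ≤ r')
    (hno : NoRealValue φ) : NoRealValue (pad φ r') := by
  intro z hz
  obtain ⟨j, hj⟩ := hno z hz
  refine ⟨⟨j.1, lt_of_lt_of_le j.2 hr⟩, ?_⟩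
  unfold pad
  rw [dif_pos j.2]
  exact hj

end Pool.Agent.Lib.MP_7fdaab_ag.Heis
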