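import Pool.Agent.Lib.MP_7fdaab_ag.Heis.Pauli
import Pool.Agent.Lib.MP_7fdaab_ag.Heis.Graph
import Mathlib.LinearAlgebra.Complex.FiniteDimensional

/-!
Sign invariant systems: the lower bound `3 m ≤ 2 r`.
-/

namespace Pool.Agent.Lib.MP_7fdaab_ag.Heis

open Finset

variable {m r : ℕ}

theorem signs_signs (e g : Fin m → ZMod 2) (z : Fin m → ℂ) :
    signs e (signs g z) = signs (e + g) z := by
  funext i
  unfold signs
  rw [Pi.add_apply, csgn_add]; ring

theorem signs_zero (z : Fin m → ℂ) : signs (0 : Fin m → ZMod 2) z = z := by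
  funext i
  unfold signs
  rw [Pi.zero_apply, csgn_zero, one_mul]

theorem signs_add (e : Fin m → ZMod 2) (x y : Fin m → ℂ) :
    signs e (x + y) = signs e x + signs e y := by
  funext i
  unfold signs
  rw [Pi.add_apply, Pi.add_apply]; ring

theorem signs_single (e : Fin m → ZMod 2) (i : Fin m) :
    signs e (Pi.single i 1) = csgn (e i) • (Pi.single i 1 : Fin m → ℂ) := by
  funext j
  unfold signs
  rw [Pi.smul_apply, smul_eq_mul]
  by_cases h : j = i
  · rw [h]
  · rw [Pi.single_eq_of_ne h, mul_zero, mul_zero]

/-- semi-invariant functions of the span -/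
def SemiS (φ : Fin r → QuadraticForm ℂ (Fin m → ℂ)) : Set ((Fin m → ℂ) → ℂ) :=
  {f | f ∈ spanR φ ∧ ∀ e : Fin m → ZMod 2, ∃ s : ZMod 2, ∀ z, f (signs e z) = csgn s * f z}

/-- the isotypic projection -/
noncomputable def projS (g : Fin m → ZMod 2) (f : (Fin m → ℂ) → ℂ) : (Fin m → ℂ) → ℂ :=
  ∑ e : Fin m → ZMod 2, (((2 : ℝ) ^ m)⁻¹ * (sg (dot g e) : ℝ)) • pull (signs e) f

theorem projS_apply (g : Fin m → ZMod 2) (f : (Fin m → ℂ) → ℂ) (z : Fin m → ℂ) :
    projS g f z = ((2 : ℂ) ^ m)⁻¹ * ∑ e : Fin m → ZMod 2, csgn (dot g e) * f (signs e z) := by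
  unfold projS
  rw [Finset.sum_apply, Finset.mul_sum]
  apply Finset.sum_congr rfl
  intro h _
  rw [Pi.smul_apply, pull_apply, Complex.real_smul, csgn_eq_real]
  push_cast; ring

theorem projS_semi (φ : Fin r → QuadraticForm ℂ (Fin m → ℂ)) (hφ : SignInvariant φ)
    (g : Fin m → ZMod 2) (f : (Fin m → ℂ) → ℂ) (hf : f ∈ spanR φ) : projS g f ∈ SemiS φ := by
  refine ⟨?_, ?_⟩
  · unfold projS
    apply Submodule.sum_mem
    intro h _
    exact Submodule.smul_mem _ _ (span_stable φ _ (hφ h) f hf)
  · intro h'
    refine ⟨dot g h', ?_⟩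
    intro z
    rw [projS_apply, projS_apply]
    have h1 : ∑ h : Fin m → ZMod 2, csgn (dot g h) * f (signs h (signs h' z))
        = ∑ h : Fin m → ZMod 2, csgn (dot g h') * (csgn (dot g h) * f (signs h z)) := by
      calc ∑ h : Fin m → ZMod 2, csgn (dot g h) * f (signs h (signs h' z))
          = ∑ h : Fin m → ZMod 2,
              csgn (dot g h') * (csgn (dot g (h + h')) * f (signs (h + h') z)) := by
            apply Finset.sum_congr rfl
            intro h _
            rw [signs_signs, dot_add_right, csgn_add]
            have := csgn_mul_self (dot g h')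
            calc csgn (dot g h) * f (signs (h + h') z)
                = (csgn (dot g h') * csgn (dot g h')) * (csgn (dot g h) * f (signs (h + h') z)) := by
                  rw [this, one_mul]
              _ = _ := by ring
        _ = ∑ h : Fin m → ZMod 2, csgn (dot g h') * (csgn (dot g h) * f (signs h z)) :=
            Fintype.sum_equiv (Equiv.addRight h') _ _ (fun h => rfl)
    rw [h1, ← Finset.mul_sum]; ring

theorem sum_projS (f : (Fin m → ℂ) → ℂ) : ∑ g : Fin m → ZMod 2, projS g f = f := by
  funext z
  rw [Finset.sum_apply]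
  have h1 : ∀ g : Fin m → ZMod 2, projS g f z
      = ((2 : ℂ) ^ m)⁻¹ * ∑ h : Fin m → ZMod 2, csgn (dot g h) * f (signs h z) :=
    fun g => projS_apply g f z
  rw [Finset.sum_congr rfl (fun g _ => h1 g), ← Finset.mul_sum, Finset.sum_comm]
  have h2 : ∀ h : Fin m → ZMod 2, ∑ g : Fin m → ZMod 2, csgn (dot g h) * f (signs h z)
      = if h = 0 then (2 : ℂ) ^ m * f z else 0 := by
    intro h
    rw [← Finset.sum_mul]
    have h3 : ∑ g : Fin m → ZMod 2, csgn (dot g h)
        = (((if h = 0 then (2 : ℤ) ^ m else 0) : ℤ) : ℂ) := by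
      rw [← sum_dot h]
      push_cast
      apply Finset.sum_congr rfl
      intro g _
      rw [csgn_eq_real, dot_comm]; push_cast; rfl
    rw [h3]
    split_ifs with h0
    · subst h0; rw [signs_zero]; push_cast; rfl
    · push_cast; rw [zero_mul]
  rw [Finset.sum_congr rfl (fun h _ => h2 h), Finset.sum_ite_eq' univ (0 : Fin m → ZMod 2)
    (fun _ => (2 : ℂ) ^ m * f z), if_pos (Finset.mem_univ _), ← mul_assoc,
    inv_mul_cancel₀ (pow_ne_zero _ (by norm_num)), one_mul]

theorem span_semiS (φ : Fin r → QuadraticForm ℂ (Fin m → ℂ))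
    (hφ : SignInvariant φ) : Submodule.span ℝ (SemiS φ) = spanR φ := by
  apply le_antisymm
  · rw [Submodule.span_le]
    intro f hf; exact hf.1
  · intro f hf
    rw [← sum_projS f]
    apply Submodule.sum_mem
    intro g _
    exact Submodule.subset_span (projS_semi φ hφ g f hf)

/-- polar form of a function -/
def pol (f : (Fin m → ℂ) → ℂ) (x y : Fin m → ℂ) : ℂ := f (x + y) - f x - f y

theorem pol_comm (f : (Fin m → ℂ) → ℂ) (x y : Fin m → ℂ) : pol f x y = pol f y x := by
  unfold pol; rw [add_comm]; ring

theorem pol_smul (φ : Fin r → QuadraticForm ℂ (Fin m → ℂ)) (f : (Fin m → ℂ) → ℂ)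
    (hf : f ∈ spanR φ) : ∀ (c d : ℂ) (x y : Fin m → ℂ),
    pol f (c • x) (d • y) = c * d * pol f x y := by
  unfold spanR at hf
  induction hf using Submodule.span_induction with
  | mem f h =>
    obtain ⟨i, rfl⟩ := h
    intro c d x y
    have h := QuadraticMap.polar_smul_left (φ i) c x (d • y)
    have h' := QuadraticMap.polar_smul_right (φ i) d x y
    rw [h'] at h
    change QuadraticMap.polar (φ i) (c • x) (d • y) = c * d * QuadraticMap.polar (φ i) x y
    rw [h, smul_eq_mul, smul_eq_mul]; ring
  | zero => intro c d x y; unfold pol; simp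
  | add f g _ _ h1 h2 =>
    intro c d x y
    have h3 := h1 c d x y
    have h4 := h2 c d x y
    unfold pol at *
    simp only [Pi.add_apply]
    linear_combination h3 + h4
  | smul a f _ h =>
    intro c d x y
    have h3 := h c d x y
    unfold pol at *
    simp only [Pi.smul_apply, Complex.real_smul]
    linear_combination (a : ℂ) * h3

theorem two_f (φ : Fin r → QuadraticForm ℂ (Fin m → ℂ)) (f : (Fin m → ℂ) → ℂ)
    (hf : f ∈ spanR φ) : ∀ z : Fin m → ℂ,
    2 * f z = ∑ i, ∑ j, pol f (Pi.single i 1) (Pi.single j 1) * (z i * z j) := by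
  unfold spanR at hf
  induction hf using Submodule.span_induction with
  | mem f h =>
    obtain ⟨i, rfl⟩ := h
    intro z
    have h1 : QuadraticMap.polar (φ i) z z = 2 * φ i z := by
      rw [QuadraticMap.polar_self]; norm_num
    change 2 * φ i z = ∑ a, ∑ b, QuadraticMap.polar (φ i) (Pi.single a 1) (Pi.single b 1)
      * (z a * z b)
    rw [← h1]
    have hz : z = ∑ a, z a • (Pi.single a 1 : Fin m → ℂ) := by
      funext j
      rw [Finset.sum_apply, Finset.sum_eq_single j]
      · rw [Pi.smul_apply, Pi.single_eq_same, smul_eq_mul, mul_one]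
      · intro b _ hb
        rw [Pi.smul_apply, Pi.single_eq_of_ne hb.symm, smul_zero]
      · intro h; exact absurd (Finset.mem_univ j) h
    have h2 : ∀ x y, QuadraticMap.polar (φ i) x y = QuadraticMap.polarBilin (φ i) x y :=
      fun x y => rfl
    rw [h2]
    have h3 : QuadraticMap.polarBilin (φ i) z z
        = ∑ a, QuadraticMap.polarBilin (φ i) (z a • (Pi.single a 1 : Fin m → ℂ)) z := by
      conv_lhs => rw [hz]
      rw [← hz, hz, ← hz]
      conv_lhs =>
        enter [1]
        rw [hz]
      rw [map_sum, LinearMap.sum_apply]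
    rw [h3]
    apply Finset.sum_congr rfl
    intro a _
    have h4 : QuadraticMap.polarBilin (φ i) (z a • (Pi.single a 1 : Fin m → ℂ)) z
        = ∑ b, QuadraticMap.polarBilin (φ i) (z a • (Pi.single a 1 : Fin m → ℂ))
          (z b • (Pi.single b 1 : Fin m → ℂ)) := by
      rw [← map_sum, ← hz]
    rw [h4]
    apply Finset.sum_congr rfl
    intro b _
    rw [map_smul, map_smul, LinearMap.smul_apply, h2, smul_eq_mul, smul_eq_mul]; ring
  | zero => intro z; unfold pol; simp
  | add f g _ _ h1 h2 =>
    intro z
    have h3 : ∀ x y, pol (f + g) x y = pol f x y + pol g x y := by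
      intro x y; unfold pol; simp only [Pi.add_apply]; ring
    simp only [h3, Pi.add_apply, add_mul, Finset.sum_add_distrib]
    rw [← h1 z, ← h2 z]; ring
  | smul a f _ h =>
    intro z
    have h3 : ∀ x y, pol (a • f) x y = (a : ℂ) * pol f x y := by
      intro x y; unfold pol; simp only [Pi.smul_apply, Complex.real_smul]; ring
    simp only [h3, Pi.smul_apply, Complex.real_smul, mul_assoc, ← Finset.mul_sum]
    rw [← h z]; ring

/-- coefficient -/
noncomputable def co (f : (Fin m → ℂ) → ℂ) (i j : Fin m) : ℂ :=
  pol f (Pi.single i 1) (Pi.single j 1)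

theorem co_comm (f : (Fin m → ℂ) → ℂ) (i j : Fin m) : co f i j = co f j i := pol_comm f _ _

theorem co_semi (φ : Fin r → QuadraticForm ℂ (Fin m → ℂ)) (f : (Fin m → ℂ) → ℂ)
    (hf : f ∈ SemiS φ) (e : Fin m → ZMod 2) : ∃ s : ZMod 2, ∀ i j : Fin m,
    co f i j ≠ 0 → e i + e j = s := by
  obtain ⟨s, hs⟩ := hf.2 e
  refine ⟨s, ?_⟩
  intro i j hij
  have h1 : pol f (signs e (Pi.single i 1)) (signs e (Pi.single j 1)) = csgn s * co f i j := by
    unfold co pol
    rw [← signs_add, hs, hs, hs]; ring
  rw [signs_single, signs_single, pol_smul φ f hf.1, ← csgn_add] at h1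
  exact csgn_inj _ _ (mul_right_cancel₀ hij h1)

/-- if `co f i j ≠ 0` for some `i ≠ j` then all other coefficients vanish -/
theorem co_unique (φ : Fin r → QuadraticForm ℂ (Fin m → ℂ)) (f : (Fin m → ℂ) → ℂ)
    (hf : f ∈ SemiS φ) (i j : Fin m) (hij : i ≠ j) (h : co f i j ≠ 0) (k l : Fin m)
    (hkl : co f k l ≠ 0) : (k = i ∧ l = j) ∨ (k = j ∧ l = i) := by
  have key : ∀ e : Fin m → ZMod 2, e i + e j = e k + e l := by
    intro e
    obtain ⟨s, hs⟩ := co_semi φ f hf e
    rw [hs i j h, hs k l hkl]
  have h10 : (1 : ZMod 2) ≠ 0 := by decide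
  have h11 : (1 : ZMod 2) + 1 = 0 := by decide
  have h1 := key (Pi.single i 1)
  have h2 := key (Pi.single j 1)
  rw [Pi.single_eq_same, Pi.single_eq_of_ne hij.symm, add_zero] at h1
  rw [Pi.single_eq_same, Pi.single_eq_of_ne hij, zero_add] at h2
  by_cases hk : k = i
  · by_cases hl : l = j
    · exact Or.inl ⟨hk, hl⟩
    · exfalso
      rw [hk, Pi.single_eq_of_ne hij, Pi.single_eq_of_ne hl] at h2
      exact h10 (by rw [h2]; rfl)
  · by_cases hl : l = i
    · by_cases hk' : k = j
      · exact Or.inr ⟨hk', hl⟩
      · exfalso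
        rw [hl, Pi.single_eq_of_ne hij, Pi.single_eq_of_ne hk'] at h2
        exact h10 (by rw [h2]; rfl)
    · exfalso
      rw [Pi.single_eq_of_ne hk, Pi.single_eq_of_ne hl] at h1
      exact h10 (by rw [h1]; rfl)

theorem sign_bound (φ : Fin r → QuadraticForm ℂ (Fin m → ℂ))
    (hφ : SignInvariant φ) (hno : NoRealValue φ) : 3 * m ≤ 2 * r := by
  classical
  obtain ⟨b, hbS, hbspan, hbli⟩ := exists_linearIndependent ℝ (SemiS φ)
  have hspan : Submodule.span ℝ b = spanR φ := hbspan.trans (span_semiS φ hφ)
  have hfin : Module.Finite ℝ (spanR φ) := by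
    unfold spanR
    exact FiniteDimensional.span_of_finite ℝ (Set.finite_range _)
  have hrange : Set.range (Subtype.val : b → ((Fin m → ℂ) → ℂ)) = b := Subtype.range_val
  have hB : Module.Finite ℝ (Submodule.span ℝ (Set.range (Subtype.val : b → ((Fin m → ℂ) → ℂ)))) := by
    rw [hrange, hspan]; exact hfin
  let B := Module.Basis.span hbli
  have : Finite b := Module.Finite.finite_basis B
  have : Fintype b := Fintype.ofFinite b
  have hcard : Fintype.card b ≤ r := by
    have h1 : Module.finrank ℝ (Submodule.span ℝ (Set.range (Subtype.val : b → ((Fin m → ℂ) → ℂ))))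
        = Fintype.card b := Module.finrank_eq_card_basis B
    rw [hrange, hspan] at h1
    rw [← h1]
    unfold spanR
    calc Module.finrank ℝ (Submodule.span ℝ (Set.range (fn φ))) ≤ Fintype.card (Fin r) :=
          finrank_range_le_card (fn φ)
      _ = r := Fintype.card_fin r
  -- the graph
  let adj : Fin m → Fin m → Prop := fun i j => i ≠ j ∧ ∃ f : b, co (f : (Fin m → ℂ) → ℂ) i j ≠ 0
  obtain ⟨I, _, hI, hineq⟩ := exists_indep adj
    (fun i j h => ⟨h.1.symm, by obtain ⟨f, hf⟩ := h.2; exact ⟨f, by rw [co_comm]; exact hf⟩⟩)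
    (fun i h => h.1 rfl) m univ (by simp)
  let b1 : Finset b := univ.filter (fun f : b => ∃ i j, i ≠ j ∧ co (f : (Fin m → ℂ) → ℂ) i j ≠ 0)
  let b0 : Finset b := univ.filter (fun f : b => ¬ ∃ i j, i ≠ j ∧ co (f : (Fin m → ℂ) → ℂ) i j ≠ 0)
  have hbb : b1.card + b0.card = Fintype.card b := by
    rw [← Finset.card_univ]; exact Finset.card_filter_add_card_filter_not _
  have he : (edges adj univ).card ≤ b1.card := by
    have hch : ∀ p : Fin m × Fin m, ∃ f : b, p ∈ edges adj univ → co (f : (Fin m → ℂ) → ℂ) p.1 p.2 ≠ 0 := by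
      intro p
      by_cases hp : p ∈ edges adj univ
      · obtain ⟨f, hf⟩ := ((mem_edges adj univ p).1 hp).2.2.2
        exact ⟨f, fun _ => hf⟩
      · by_cases hne : Nonempty b
        · exact ⟨hne.some, fun h => absurd h hp⟩
        · -- `b` is empty, then there are no edges; use a dummy
          exfalso
          obtain ⟨j, hj⟩ : ∃ j : Fin r, True ∨ True := by
            by_cases hm : Nonempty (Fin m)
            · obtain ⟨j, _⟩ := hno (Pi.single hm.some 1) (by
                intro h0
                have := congrFun h0 hm.some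
                rw [Pi.single_eq_same] at this
                exact one_ne_zero this)
              exact ⟨j, Or.inl trivial⟩
            · exact absurd ⟨p.1⟩ hm
          obtain ⟨j', hj'⟩ := hno (Pi.single p.1 1) (by
            intro h0
            have := congrFun h0 p.1
            rw [Pi.single_eq_same] at this
            exact one_ne_zero this)
          apply hj'
          apply real_of_real φ b hspan
          intro f hf
          exact absurd ⟨⟨f, hf⟩⟩ hne
    choose q hq using hch
    apply Finset.card_le_card_of_injOn q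
    · intro p hp
      have h1 := hq p hp
      have h2 := ((mem_edges adj univ p).1 hp).2.1
      rw [Finset.mem_coe, Finset.mem_filter]
      exact ⟨Finset.mem_univ _, p.1, p.2, h2.ne, h1⟩
    · intro p hp p' hp' hpp
      have h1 := hq p hp
      have h2 := hq p' hp'
      rw [← hpp] at h2
      have hlt := ((mem_edges adj univ p).1 hp).2.1
      have hlt' := ((mem_edges adj univ p').1 hp').2.1
      rcases co_unique φ (q p) (hbS (q p).2) p.1 p.2 hlt.ne h1 p'.1 p'.2 h2 with h3 | h3
      · exact Prod.ext h3.1.symm h3.2.symm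
      · exfalso
        rw [h3.1, h3.2] at hlt'
        exact lt_asymm hlt hlt'
  have h0 : 2 * I.card ≤ b0.card := by
    by_contra hcon
    push Not at hcon
    -- a real linear map with nontrivial kernel
    let L : (I → ℂ) →ₗ[ℝ] (b0 → ℝ) :=
      { toFun := fun s f => (∑ i : I, co ((f : b) : (Fin m → ℂ) → ℂ) i i * s i).im
        map_add' := by
          intro s t
          funext f
          rw [Pi.add_apply, ← Complex.add_im, ← Finset.sum_add_distrib]
          congr 1
          apply Finset.sum_congr rfl
          intro i _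
          rw [Pi.add_apply]; ring
        map_smul' := by
          intro a s
          funext f
          rw [Pi.smul_apply, RingHom.id_apply, smul_eq_mul, ← Complex.im_ofReal_mul,
            Finset.mul_sum]
          congr 1
          apply Finset.sum_congr rfl
          intro i _
          rw [Pi.smul_apply, Complex.real_smul]; ring }
    have hlt : Module.finrank ℝ (b0 → ℝ) < Module.finrank ℝ (I → ℂ) := by
      rw [Module.finrank_fintype_fun_eq_card, finrank_real_of_complex,
        Module.finrank_fintype_fun_eq_card, Fintype.card_coe, Fintype.card_coe]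
      exact hcon
    have hker := LinearMap.ker_ne_bot_of_finrank_lt (f := L) hlt
    obtain ⟨s, hs, hs0⟩ := Submodule.exists_mem_ne_zero_of_ne_bot hker
    rw [LinearMap.mem_ker] at hs
    have hsq : ∀ i : I, ∃ w : ℂ, w ^ 2 = s i := fun i =>
      IsAlgClosed.exists_pow_nat_eq (s i) (by norm_num)
    choose w hw using hsq
    let z : Fin m → ℂ := fun i => if h : i ∈ I then w ⟨i, h⟩ else 0
    have hz0 : z ≠ 0 := by
      intro h0
      apply hs0
      funext i
      have h1 := congrFun h0 i.1
      have h2 : z i.1 = w i := by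
        change (if h : i.1 ∈ I then w ⟨i.1, h⟩ else 0) = w i
        rw [dif_pos i.2]
      rw [h2] at h1
      rw [← hw i, h1, Pi.zero_apply]; norm_num
    obtain ⟨j, hj⟩ := hno z hz0
    apply hj
    apply real_of_real φ b hspan z
    intro f hf
    by_cases hfb : ∃ i j, i ≠ j ∧ co f i j ≠ 0
    · obtain ⟨i, j, hij, hco⟩ := hfb
      have h2f := two_f φ f (hbS hf).1 z
      have hsum : ∑ a, ∑ c, pol f (Pi.single a 1) (Pi.single c 1) * (z a * z c) = 0 := by
        apply Finset.sum_eq_zero
        intro a _
        apply Finset.sum_eq_zero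
        intro c _
        by_cases hac : co f a c = 0
        · change co f a c * _ = 0
          rw [hac, zero_mul]
        · have hadj : adj i j := ⟨hij, ⟨f, hf⟩, hco⟩
          have hnot : z i * z j = 0 := by
            by_cases hi : i ∈ I
            · by_cases hjI : j ∈ I
              · exact absurd hadj (hI i hi j hjI)
              · have : z j = 0 := by
                  change (if h : j ∈ I then w ⟨j, h⟩ else 0) = 0
                  rw [dif_neg hjI]
                rw [this, mul_zero]
            · have : z i = 0 := by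
                change (if h : i ∈ I then w ⟨i, h⟩ else 0) = 0
                rw [dif_neg hi]
              rw [this, zero_mul]
          rcases co_unique φ f (hbS hf) i j hij hco a c hac with h3 | h3
          · rw [h3.1, h3.2, hnot, mul_zero]
          · rw [h3.1, h3.2, mul_comm (z j), hnot, mul_zero]
      rw [hsum] at h2f
      have h3 : f z = 0 := by
        have h4 : (2 : ℂ) ≠ 0 := by norm_num
        exact (mul_eq_zero.1 h2f).resolve_left h4
      rw [h3]; rfl
    · have hfb0 : (⟨f, hf⟩ : b) ∈ b0 := Finset.mem_filter.2 ⟨Finset.mem_univ _, hfb⟩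
      have h2f := two_f φ f (hbS hf).1 z
      have hsum : ∑ a, ∑ c, pol f (Pi.single a 1) (Pi.single c 1) * (z a * z c)
          = ∑ i : I, co f i i * s i := by
        have h4 : ∀ a, ∑ c, pol f (Pi.single a 1) (Pi.single c 1) * (z a * z c)
            = co f a a * (z a * z a) := by
          intro a
          rw [Finset.sum_eq_single a]
          · rfl
          · intro c _ hca
            have : co f a c = 0 := by
              by_contra hne
              exact hfb ⟨a, c, hca.symm, hne⟩
            change co f a c * _ = 0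
            rw [this, zero_mul]
          · intro h; exact absurd (Finset.mem_univ a) h
        rw [Finset.sum_congr rfl (fun a _ => h4 a)]
        have h5 : ∑ a ∈ I, co f a a * (z a * z a) = ∑ a, co f a a * (z a * z a) := by
          apply Finset.sum_subset (Finset.subset_univ I)
          intro a _ ha
          have : z a = 0 := by
            change (if h : a ∈ I then w ⟨a, h⟩ else 0) = 0
            rw [dif_neg ha]
          rw [this]; ring
        rw [← h5, ← Finset.sum_coe_sort I (fun a => co f a a * (z a * z a))]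
        apply Finset.sum_congr rfl
        intro i _
        have h6 : z i.1 = w i := by
          change (if h : i.1 ∈ I then w ⟨i.1, h⟩ else 0) = w i
          rw [dif_pos i.2]
        rw [h6, ← sq, hw]
      have h7 := congrFun hs ⟨⟨f, hf⟩, hfb0⟩
      have h8 : (∑ i : I, co f i i * s i).im = 0 := h7
      rw [hsum] at h2f
      have h9 : (2 * f z).im = 0 := by rw [h2f]; exact h8
      rw [Complex.mul_im] at h9
      norm_num at h9
      exact h9
  rw [Finset.card_univ, Fintype.card_fin] at hineq
  have he' := he
  omega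

end Pool.Agent.Lib.MP_7fdaab_ag.Heis
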