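import Pool.Agent.Lib.MP_7fdaab_ag.Heis.Core
import Pool.Agent.Lib.MP_7fdaab_ag.Heis.Defs
import Mathlib.LinearAlgebra.Dimension.Constructions
import Mathlib.LinearAlgebra.FiniteDimensional.Defs

/-!
The real span of the components of a system as a space of functions.
-/

namespace Pool.Agent.Lib.MP_7fdaab_ag.Heis

open Finset

theorem csgn_zero : csgn 0 = 1 := rfl

theorem csgn_one : csgn 1 = -1 := by
  unfold csgn; rw [if_neg (by decide)]

theorem csgn_add (s t : ZMod 2) : csgn (s + t) = csgn s * csgn t := by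
  have h : ∀ s : ZMod 2, s = 0 ∨ s = 1 := by decide
  have h11 : (1 : ZMod 2) + 1 = 0 := by decide
  rcases h s with rfl | rfl <;> rcases h t with rfl | rfl
  · rw [add_zero, csgn_zero]; norm_num
  · rw [zero_add, csgn_zero]; norm_num
  · rw [add_zero, csgn_zero]; norm_num
  · rw [h11, csgn_zero, csgn_one]; norm_num

theorem csgn_mul_self (t : ZMod 2) : csgn t * csgn t = 1 := by
  have h : ∀ s : ZMod 2, s = 0 ∨ s = 1 := by decide
  rcases h t with rfl | rfl
  · rw [csgn_zero]; norm_num
  · rw [csgn_one]; norm_num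

theorem csgn_ne_zero (t : ZMod 2) : csgn t ≠ 0 := by
  intro h
  have := csgn_mul_self t
  rw [h] at this; norm_num at this

theorem csgn_eq_real (t : ZMod 2) : csgn t = ((sg t : ℝ) : ℂ) := by
  have h : ∀ s : ZMod 2, s = 0 ∨ s = 1 := by decide
  rcases h t with rfl | rfl
  · rw [csgn_zero, sg_zero]; norm_num
  · rw [csgn_one, sg_one]; norm_num

/-- real valued functions on `C^m` spanned by the components -/
def fn {ι : Type} {r : ℕ} (φ : Fin r → QuadraticForm ℂ (ι → ℂ)) (i : Fin r) : (ι → ℂ) → ℂ :=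
  fun z => φ i z

/-- the real span -/
noncomputable def spanR {ι : Type} {r : ℕ} (φ : Fin r → QuadraticForm ℂ (ι → ℂ)) :
    Submodule ℝ ((ι → ℂ) → ℂ) := Submodule.span ℝ (Set.range (fn φ))

/-- pullback along a map -/
noncomputable def pull {ι : Type} (T : (ι → ℂ) → (ι → ℂ)) :
    ((ι → ℂ) → ℂ) →ₗ[ℝ] ((ι → ℂ) → ℂ) where
  toFun f := fun z => f (T z)
  map_add' _ _ := rfl
  map_smul' _ _ := rfl

theorem pull_apply {ι : Type} (T : (ι → ℂ) → (ι → ℂ)) (f : (ι → ℂ) → ℂ) (z : ι → ℂ) :
    pull T f z = f (T z) := rfl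

theorem span_stable {ι : Type} {r : ℕ} (φ : Fin r → QuadraticForm ℂ (ι → ℂ))
    (T : (ι → ℂ) → (ι → ℂ))
    (hT : SpanInvariant φ T)
    (f : (ι → ℂ) → ℂ) (hf : f ∈ spanR φ) : pull T f ∈ spanR φ := by
  have h1 : spanR φ ≤ (spanR φ).comap (pull T) := by
    unfold spanR
    rw [Submodule.span_le]
    rintro _ ⟨j, rfl⟩
    rw [SetLike.mem_coe, Submodule.mem_comap]
    obtain ⟨c, hc⟩ := hT j
    have h2 : pull T (fn φ j) = ∑ i, c i • fn φ i := by
      funext z
      rw [pull_apply, Finset.sum_apply]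
      change φ j (T z) = _
      rw [hc z]
      apply Finset.sum_congr rfl
      intro i _
      rw [Pi.smul_apply, Complex.real_smul]
      rfl
    rw [h2]
    apply Submodule.sum_mem
    intro i _
    exact Submodule.smul_mem _ _ (Submodule.subset_span ⟨i, rfl⟩)
  exact h1 hf

/-- every function in the span is homogeneous of degree two over `ℂ` -/
theorem hom_two {ι : Type} {r : ℕ} (φ : Fin r → QuadraticForm ℂ (ι → ℂ))
    (f : (ι → ℂ) → ℂ) (hf : f ∈ spanR φ) (c : ℂ) (z : ι → ℂ) :
    f (c • z) = c * c * f z := by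
  unfold spanR at hf
  induction hf using Submodule.span_induction with
  | mem f h =>
    obtain ⟨i, rfl⟩ := h
    change φ i (c • z) = c * c * φ i z
    rw [QuadraticMap.map_smul]; rfl
  | zero => simp
  | add f g _ _ h1 h2 => rw [Pi.add_apply, Pi.add_apply, h1, h2]; ring
  | smul a f _ h => rw [Pi.smul_apply, Pi.smul_apply, h, Complex.real_smul, Complex.real_smul]; ring

theorem real_of_real {ι : Type} {r : ℕ} (φ : Fin r → QuadraticForm ℂ (ι → ℂ))
    (b : Set ((ι → ℂ) → ℂ)) (hb : Submodule.span ℝ b = spanR φ) (z : ι → ℂ)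
    (h : ∀ f ∈ b, (f z).im = 0) (j : Fin r) : (φ j z).im = 0 := by
  have h1 : fn φ j ∈ Submodule.span ℝ b := by
    rw [hb]; exact Submodule.subset_span ⟨j, rfl⟩
  have h2 : ∀ f ∈ Submodule.span ℝ b, (f z).im = 0 := by
    intro f hf
    induction hf using Submodule.span_induction with
    | mem f hf => exact h f hf
    | zero => simp
    | add f g _ _ h1 h2 => rw [Pi.add_apply, Complex.add_im, h1, h2, add_zero]
    | smul a f _ h => rw [Pi.smul_apply, Complex.real_smul, Complex.im_ofReal_mul, h, mul_zero]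
  exact h2 _ h1

end Pool.Agent.Lib.MP_7fdaab_ag.Heis
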